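import Pool.Agent.R647.SS.Two

/-!
# Irreducible matrices `A` with `A - μ I` of rank one
-/

set_option autoImplicit false

namespace Pool.Agent.R647.SS

open Matrix Pool.Agent.TH441.SSE2

/-- The integer matrix `A - μ I`. -/
def Dv {n : ℕ} (μ : ℤ) (A : Matrix (Fin n) (Fin n) ℕ) : Matrix (Fin n) (Fin n) ℤ :=
  A.map (Nat.cast : ℕ → ℤ) - μ • (1 : Matrix (Fin n) (Fin n) ℤ)

/-- All `2 × 2` minors of `D` vanish: `D` has rank at most one. -/
def RkOne {n : ℕ} (D : Matrix (Fin n) (Fin n) ℤ) : Prop :=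
  ∀ i j k l, D i j * D k l = D i l * D k j

/-- `A` is irreducible. -/
def Irr {n : ℕ} (A : Matrix (Fin n) (Fin n) ℕ) : Prop := ∀ i j, ∃ k, (A ^ k) i j ≠ 0

lemma factor {n : ℕ} (i0 : Fin n) (D : Matrix (Fin n) (Fin n) ℤ) (hpos : ∀ i j, 0 < D i j)
    (hr : RkOne D) : ∃ u v : Fin n → ℤ, (∀ i, 1 ≤ u i) ∧ (∀ i, 1 ≤ v i) ∧
      ∀ i j, D i j = u i * v j := by
  obtain ⟨d, hd⟩ := (IsPrincipalIdealRing.principal
    (Ideal.span (Set.range fun l => D i0 l))).principal
  have hdv : ∀ l, d ∣ D i0 l := by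
    intro l
    rw [← Ideal.mem_span_singleton]
    have : D i0 l ∈ Ideal.span (Set.range fun l => D i0 l) :=
      Ideal.subset_span ⟨l, rfl⟩
    rw [hd] at this
    exact this
  have hmem : d ∈ Ideal.span (Set.range fun l => D i0 l) := by
    rw [hd]
    exact Submodule.mem_span_singleton_self d
  obtain ⟨c, hc⟩ := (Ideal.mem_span_range_iff_exists_fun).mp hmem
  have hd0 : d ≠ 0 := by
    intro h
    have h1 := hdv i0
    rw [h, zero_dvd_iff] at h1
    have := hpos i0 i0
    omega
  choose w hw using hdv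
  set u : Fin n → ℤ := fun i => ∑ l, c l * D i l with hu
  have key : ∀ i j, D i j = u i * w j := by
    intro i j
    apply mul_right_cancel₀ hd0
    have h1 : u i * w j * d = u i * D i0 j := by rw [hw j]; ring
    have h2 : u i * D i0 j = D i j * d := by
      rw [← hc, hu, Finset.sum_mul, Finset.mul_sum]
      refine Finset.sum_congr rfl fun l _ => ?_
      have := hr i l i0 j
      calc c l * D i l * D i0 j = c l * (D i l * D i0 j) := by ring
        _ = D i j * (c l * D i0 l) := by rw [this]; ring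
    rw [h1, h2]
  rcases lt_trichotomy (w i0) 0 with h | h | h
  · have hui : ∀ i, u i < 0 := by
      intro i
      have := hpos i i0
      rw [key] at this
      by_contra hneg
      push Not at hneg
      nlinarith
    have hwj : ∀ j, w j < 0 := by
      intro j
      have := hpos i0 j
      rw [key] at this
      have h2 := hui i0
      by_contra hneg
      push Not at hneg
      nlinarith
    refine ⟨fun i => - u i, fun i => - w i, fun i => ?_, fun i => ?_, fun i j => ?_⟩
    · have := hui i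
      show 1 ≤ - u i
      omega
    · have := hwj i
      show 1 ≤ - w i
      omega
    · rw [key]; ring
  · exfalso
    have := hpos i0 i0
    rw [key, h] at this
    simp at this
  · have hui : ∀ i, 0 < u i := by
      intro i
      have := hpos i i0
      rw [key] at this
      exact pos_of_mul_pos_left this h.le
    have hwj : ∀ j, 0 < w j := by
      intro j
      have := hpos i0 j
      rw [key] at this
      exact pos_of_mul_pos_right this (hui i0).le
    exact ⟨u, w, fun i => hui i, fun i => hwj i, key⟩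

lemma cast_pow {n : ℕ} (A : Matrix (Fin n) (Fin n) ℕ) (k : ℕ) (i j : Fin n) :
    (((A ^ k) i j : ℕ) : ℤ) = ((A.map (Nat.cast : ℕ → ℤ)) ^ k) i j := by
  have h : (A ^ k).map (Nat.cast : ℕ → ℤ) = (A.map (Nat.cast : ℕ → ℤ)) ^ k :=
    Matrix.map_pow (f := Nat.castRingHom ℤ) A k
  rw [← h]; rfl

lemma Dv_apply {n : ℕ} (μ : ℤ) (A : Matrix (Fin n) (Fin n) ℕ) (i j : Fin n) :
    Dv μ A i j = A i j - (if i = j then μ else 0) := by
  simp only [Dv, Matrix.sub_apply, Matrix.map_apply, Matrix.smul_apply, Matrix.one_apply,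
    smul_eq_mul, mul_ite, mul_one, mul_zero]

/-- No row and no column of `A - μ I` vanishes. -/
lemma row_ne {n : ℕ} {μ : ℤ} {A : Matrix (Fin n) (Fin n) ℕ} (hA : Irr A) {i j : Fin n}
    (hij : i ≠ j) : ¬ ∀ l, Dv μ A i l = 0 := by
  intro h
  have hA' : ∀ x, (A.map (Nat.cast : ℕ → ℤ)) i x = if i = x then μ else 0 := by
    intro x
    have := h x
    rw [Dv_apply] at this
    rw [Matrix.map_apply]
    linarith
  have : ∀ k, ((A.map (Nat.cast : ℕ → ℤ)) ^ k) i j = 0 := by
    intro k
    induction k with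
    | zero => rw [pow_zero, Matrix.one_apply_ne hij]
    | succ k ih =>
      rw [pow_succ', Matrix.mul_apply]
      have e : ∀ x, (A.map (Nat.cast : ℕ → ℤ)) i x * ((A.map (Nat.cast : ℕ → ℤ)) ^ k) x j =
          if i = x then μ * ((A.map (Nat.cast : ℕ → ℤ)) ^ k) x j else 0 := by
        intro x
        rw [hA', ite_mul, zero_mul]
      rw [Finset.sum_congr rfl (fun x _ => e x), Finset.sum_ite_eq, if_pos (Finset.mem_univ i),
        ih, mul_zero]
  obtain ⟨k, hk⟩ := hA i j
  apply hk
  have h1 := cast_pow A k i j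
  rw [this k] at h1
  exact_mod_cast h1

lemma col_ne {n : ℕ} {μ : ℤ} {A : Matrix (Fin n) (Fin n) ℕ} (hA : Irr A) {i j : Fin n}
    (hij : i ≠ j) : ¬ ∀ l, Dv μ A l j = 0 := by
  intro h
  have hA' : ∀ x, (A.map (Nat.cast : ℕ → ℤ)) x j = if x = j then μ else 0 := by
    intro x
    have := h x
    rw [Dv_apply] at this
    rw [Matrix.map_apply]
    linarith
  have : ∀ k, ((A.map (Nat.cast : ℕ → ℤ)) ^ k) i j = 0 := by
    intro k
    induction k with
    | zero => rw [pow_zero, Matrix.one_apply_ne hij]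
    | succ k ih =>
      rw [pow_succ, Matrix.mul_apply]
      have e : ∀ x, ((A.map (Nat.cast : ℕ → ℤ)) ^ k) i x * (A.map (Nat.cast : ℕ → ℤ)) x j =
          if x = j then ((A.map (Nat.cast : ℕ → ℤ)) ^ k) i x * μ else 0 := by
        intro x
        rw [hA', mul_ite, mul_zero]
      rw [Finset.sum_congr rfl (fun x _ => e x), Finset.sum_ite_eq', if_pos (Finset.mem_univ j),
        ih, zero_mul]
  obtain ⟨k, hk⟩ := hA i j
  apply hk
  have h1 := cast_pow A k i j
  rw [this k] at h1
  exact_mod_cast h1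

lemma off_pos {n : ℕ} {μ : ℤ} {A : Matrix (Fin n) (Fin n) ℕ} (hA : Irr A)
    (hr : RkOne (Dv μ A)) {i j : Fin n} (hij : i ≠ j) : 0 < Dv μ A i j := by
  have h0 : 0 ≤ Dv μ A i j := by
    rw [Dv_apply, if_neg hij, sub_zero]
    exact Int.natCast_nonneg _
  rcases h0.lt_or_eq with h | h
  · exact h
  · exfalso
    by_cases hrow : ∀ l, Dv μ A i l = 0
    · exact row_ne hA hij hrow
    · push Not at hrow
      obtain ⟨l, hl⟩ := hrow
      apply col_ne hA hij (μ := μ)
      intro k
      have := hr i j k l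
      rw [← h, zero_mul] at this
      rcases mul_eq_zero.mp this.symm with h1 | h1
      · exact absurd h1 hl
      · exact h1

lemma map_eq_M {n : ℕ} {μ : ℤ} {A : Matrix (Fin n) (Fin n) ℕ} {u v : Fin n → ℤ}
    (h : ∀ i j, Dv μ A i j = u i * v j) : A.map (Nat.cast : ℕ → ℤ) = M μ u v := by
  ext i j
  have := h i j
  rw [Dv_apply] at this
  rw [Matrix.map_apply]
  simp only [M]
  linarith

/-- In size at least three, irreducible matrices with `A - μ I` of rank one are of the form
`μ I + u vᵀ` with positive vectors. -/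
lemma class_three {m : ℕ} {μ : ℤ} {A : Matrix (Fin (m + 3)) (Fin (m + 3)) ℕ} (hA : Irr A)
    (hr : RkOne (Dv μ A)) : ∃ u v : Fin (m + 3) → ℤ, (∀ i, 1 ≤ u i) ∧ (∀ i, 1 ≤ v i) ∧
      ∀ i j, Dv μ A i j = u i * v j := by
  refine factor 0 _ ?_ hr
  intro i j
  by_cases hij : i = j
  · subst hij
    obtain ⟨j, k, hj, hk, hjk⟩ : ∃ j k : Fin (m + 3), j ≠ i ∧ k ≠ i ∧ j ≠ k := by
      by_cases h0 : i = 0
      · subst h0
        exact ⟨1, 2, n10, n02.symm, n12⟩
      · by_cases h1 : i = 1
        · subst h1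
          exact ⟨0, 2, n10.symm, n12.symm, n02⟩
        · exact ⟨0, 1, fun h => h0 h.symm, fun h => h1 h.symm, n10.symm⟩
    have h1 := off_pos hA hr hjk
    have h2 := off_pos hA hr hk.symm
    have h3 := off_pos hA hr hj
    have h4 := hr i i j k
    have h5 : 0 < Dv μ A i i * Dv μ A j k := by rw [h4]; exact mul_pos h2 h3
    exact pos_of_mul_pos_left h5 h1.le
  · exact off_pos hA hr hij

/-- In size two, for `μ = ±1`, there is the exception `A = [[0, 1], [1, 0]]`, `μ = 1`. -/
lemma class_two {ε : ℤ} (hε : ε = 1 ∨ ε = -1) {A : Matrix (Fin 2) (Fin 2) ℕ} (hA : Irr A)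
    (hr : RkOne (Dv ε A)) : ∃ ε' : ℤ, (ε' = 1 ∨ ε' = -1) ∧ ∃ u v : Fin 2 → ℤ, (∀ i, 1 ≤ u i) ∧
      (∀ i, 1 ≤ v i) ∧ ∀ i j, Dv ε' A i j = u i * v j := by
  have h01 := off_pos hA hr (i := 0) (j := 1) (by decide)
  have h10 := off_pos hA hr (i := 1) (j := 0) (by decide)
  have h := hr 0 0 1 1
  have h5 : 0 < Dv ε A 0 0 * Dv ε A 1 1 := by rw [h]; exact mul_pos h01 h10
  rcases lt_trichotomy (Dv ε A 0 0) 0 with h0 | h0 | h0
  · have h1 : Dv ε A 1 1 < 0 := by
      by_contra hneg
      push Not at hneg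
      nlinarith
    rw [Dv_apply, if_pos rfl] at h0 h1
    have a0 : (0 : ℤ) ≤ A 0 0 := Int.natCast_nonneg _
    have a1 : (0 : ℤ) ≤ A 1 1 := Int.natCast_nonneg _
    have he : ε = 1 := by rcases hε with h | h
                          · exact h
                          · rw [h] at h0; linarith
    have b0 : (A 0 0 : ℤ) = 0 := by rw [he] at h0; omega
    have b1 : (A 1 1 : ℤ) = 0 := by rw [he] at h1; omega
    rw [Dv_apply, Dv_apply, Dv_apply, Dv_apply, if_pos rfl, if_pos rfl, if_neg (by decide),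
      if_neg (by decide), b0, b1, he] at h
    rw [Dv_apply, if_neg (by decide)] at h01 h10
    have c0 : (A 0 1 : ℤ) = 1 := by
      by_contra hne
      have : (2 : ℤ) ≤ A 0 1 := by omega
      nlinarith
    have c1 : (A 1 0 : ℤ) = 1 := by
      rw [c0] at h; linarith
    refine ⟨-1, Or.inr rfl, fun _ => 1, fun _ => 1, fun _ => le_rfl, fun _ => le_rfl, ?_⟩
    intro i j
    rw [Dv_apply]
    fin_cases i <;> fin_cases j <;> simp [b0, b1, c0, c1]
  · rw [h0, zero_mul] at h5
    exact absurd h5 (lt_irrefl _)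
  · have h1 : 0 < Dv ε A 1 1 := pos_of_mul_pos_right h5 h0.le
    refine ⟨ε, hε, factor 0 _ ?_ hr⟩
    intro i j
    fin_cases i <;> fin_cases j
    · exact h0
    · exact h01
    · exact h10
    · exact h1

end Pool.Agent.R647.SS
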