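import Pool.Agent.TH441.SSE2.Transfer

/-!
# Rank one perturbations of scalar matrices: the moves

`M μ u v = μ I + u vᵀ`.  For `i ≠ j` the pair `(u, v)` may be changed to
`(u - u_j e_i, v + v_i e_j)`.
-/

set_option autoImplicit false

namespace Pool.Agent.R647.SS

open Matrix Pool.Agent.TH441.SSE2

/-- The matrix `μ I + u vᵀ`. -/
def M {n : ℕ} (μ : ℤ) (u v : Fin n → ℤ) : Matrix (Fin n) (Fin n) ℤ :=
  fun i j => (if i = j then μ else 0) + u i * v j

/-- The number `c` divides all entries of `u vᵀ`. -/
def Cont {n : ℕ} (u v : Fin n → ℤ) (c : ℤ) : Prop := ∀ i j, c ∣ u i * v j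

/-- Admissible pairs: positive vectors such that some `g ≥ |μ|` divides all entries of `u vᵀ`. -/
def Adm {n : ℕ} (μ : ℤ) (u v : Fin n → ℤ) : Prop :=
  (∀ i, 1 ≤ u i) ∧ (∀ i, 1 ≤ v i) ∧ ∃ g : ℤ, |μ| ≤ g ∧ Cont u v g

lemma le_of_dvd_pos {g x : ℤ} (h : g ∣ x) (hx : 0 < x) : g ≤ x := Int.le_of_dvd hx h

/-- All moves are elementary equivalences. -/
lemma move {n : ℕ} {μ : ℤ} {u v : Fin n → ℤ} (h : Adm μ u v) {i j : Fin n} (hij : i ≠ j)
    (hlt : u j < u i) :
    Q (M μ u v) (M μ (Function.update u i (u i - u j)) (Function.update v j (v j + v i))) := by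
  obtain ⟨hu, hv, g, hg, hc⟩ := h
  set u' := Function.update u i (u i - u j) with hu'
  set v' := Function.update v j (v j + v i) with hv'
  have hu'i : u' i = u i - u j := by rw [hu', Function.update_self]
  have hu'k : ∀ k, k ≠ i → u' k = u k := fun k hk => by rw [hu', Function.update_of_ne hk]
  have hv'j : v' j = v j + v i := by rw [hv', Function.update_self]
  have hv'k : ∀ k, k ≠ j → v' k = v k := fun k hk => by rw [hv', Function.update_of_ne hk]
  let R : Matrix (Fin n) (Fin n) ℤ := fun a b => (if a = b then 1 else 0) + (if a = i ∧ b = j then 1 else 0)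
  let S : Matrix (Fin n) (Fin n) ℤ := fun a b =>
    (if a = b then μ else 0) - (if a = i ∧ b = j then μ else 0) + u' a * v b
  have hgμ : -g ≤ μ ∧ μ ≤ g := abs_le.mp hg
  refine Q.of_elem R S ?_ ?_ ?_ ?_
  · intro a b
    simp only [R]
    split_ifs <;> norm_num
  · intro a b
    simp only [S]
    by_cases hab : a = b
    · subst hab
      have h1 : ¬ (a = i ∧ a = j) := fun h => hij (h.1.symm.trans h.2)
      rw [if_pos rfl, if_neg h1]
      have h2 : g ≤ u' a * v a := by
        by_cases hai : a = i
        · subst hai
          rw [hu'i]
          apply le_of_dvd_pos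
          · rw [sub_mul]; exact dvd_sub (hc a a) (hc j a)
          · exact mul_pos (by linarith) (by linarith [hv a])
        · rw [hu'k a hai]
          exact le_of_dvd_pos (hc a a) (mul_pos (by linarith [hu a]) (by linarith [hv a]))
      linarith
    · rw [if_neg hab]
      by_cases h1 : a = i ∧ b = j
      · rw [if_pos h1]
        obtain ⟨rfl, rfl⟩ := h1
        have h2 : g ≤ u' a * v b := by
          rw [hu'i]
          apply le_of_dvd_pos
          · rw [sub_mul]; exact dvd_sub (hc a b) (hc b b)
          · exact mul_pos (by linarith) (by linarith [hv b])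
        linarith
      · rw [if_neg h1]
        have h2 : 0 ≤ u' a * v b := by
          by_cases hai : a = i
          · subst hai
            rw [hu'i]
            exact mul_nonneg (by linarith) (by linarith [hv b])
          · rw [hu'k a hai]
            exact mul_nonneg (by linarith [hu a]) (by linarith [hv b])
        linarith
  · ext a b
    rw [Matrix.mul_apply]
    have e1 : ∀ x, R a x * S x b = (if a = x then S x b else 0) +
        (if x = j then (if a = i then S x b else 0) else 0) := by
      intro x
      have e0 : R a x = (if a = x then 1 else 0) + (if x = j then (if a = i then 1 else 0) else 0) := by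
        simp only [R]
        congr 1
        split_ifs with h1 h2 h3 <;> first | rfl | (exfalso; tauto)
      rw [e0, add_mul, ite_mul, ite_mul, ite_mul, one_mul, zero_mul]
    rw [Finset.sum_congr rfl (fun x _ => e1 x), Finset.sum_add_distrib, Finset.sum_ite_eq,
      if_pos (Finset.mem_univ a), Finset.sum_ite_eq', if_pos (Finset.mem_univ j)]
    simp only [M, S]
    have hji : j ≠ i := hij.symm
    by_cases h1 : a = i
    · subst h1
      rw [hu'i, hu'k j hji]
      by_cases h2 : b = j
      · subst h2
        have h3 : ¬ (a = b) := hij
        simp [h3, hij.symm]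
        ring
      · have h3 : ¬ (j = b) := fun h => h2 h.symm
        simp [h2, h3, hij.symm]
        ring
    · rw [hu'k a h1]
      simp [h1]
  · ext a b
    rw [Matrix.mul_apply]
    have e1 : ∀ x, S a x * R x b = (if x = b then S a x else 0) +
        (if x = i then (if b = j then S a x else 0) else 0) := by
      intro x
      have e0 : R x b = (if x = b then 1 else 0) + (if x = i then (if b = j then 1 else 0) else 0) := by
        simp only [R]
        congr 1
        split_ifs with h1 h2 h3 <;> first | rfl | (exfalso; tauto)
      rw [e0, mul_add, mul_ite, mul_ite, mul_ite, mul_one, mul_zero]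
    rw [Finset.sum_congr rfl (fun x _ => e1 x), Finset.sum_add_distrib, Finset.sum_ite_eq',
      if_pos (Finset.mem_univ b), Finset.sum_ite_eq', if_pos (Finset.mem_univ i)]
    simp only [M, S]
    by_cases h1 : b = j
    · subst h1
      rw [hv'j]
      by_cases h2 : a = i
      · subst h2
        simp [hij]
        ring
      · simp [h2]
        ring
    · rw [hv'k b h1]
      simp [h1]

lemma adm_move {n : ℕ} {μ : ℤ} {u v : Fin n → ℤ} (h : Adm μ u v) {i j : Fin n}
    (hlt : u j < u i) :
    Adm μ (Function.update u i (u i - u j)) (Function.update v j (v j + v i)) := by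
  obtain ⟨hu, hv, g, hg, hc⟩ := h
  refine ⟨fun k => ?_, fun k => ?_, g, hg, fun a b => ?_⟩
  · by_cases hk : k = i
    · subst hk; rw [Function.update_self]; linarith
    · rw [Function.update_of_ne hk]; exact hu k
  · by_cases hk : k = j
    · subst hk; rw [Function.update_self]; linarith [hv k, hv i]
    · rw [Function.update_of_ne hk]; exact hv k
  · by_cases ha : a = i <;> by_cases hb : b = j
    · subst ha; subst hb
      rw [Function.update_self, Function.update_self, sub_mul, mul_add, mul_add]
      exact dvd_sub (dvd_add (hc _ _) (hc _ _)) (dvd_add (hc _ _) (hc _ _))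
    · subst ha
      rw [Function.update_self, Function.update_of_ne hb, sub_mul]
      exact dvd_sub (hc _ _) (hc _ _)
    · subst hb
      rw [Function.update_of_ne ha, Function.update_self, mul_add]
      exact dvd_add (hc _ _) (hc _ _)
    · rw [Function.update_of_ne ha, Function.update_of_ne hb]
      exact hc _ _

/-- The content does not change. -/
lemma cont_move {n : ℕ} {u v : Fin n → ℤ} {i j : Fin n} (hij : i ≠ j) (c : ℤ) :
    Cont (Function.update u i (u i - u j)) (Function.update v j (v j + v i)) c ↔ Cont u v c := by
  constructor
  · intro h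
    have k1 : ∀ a b, a ≠ i → b ≠ j → c ∣ u a * v b := fun a b ha hb => by
      have := h a b
      rwa [Function.update_of_ne ha, Function.update_of_ne hb] at this
    have k2 : ∀ a, a ≠ i → c ∣ u a * v j := fun a ha => by
      have h1 := h a j
      rw [Function.update_of_ne ha, Function.update_self, mul_add] at h1
      have h2 := k1 a i ha hij
      exact (dvd_add_left h2).mp h1
    have k3 : ∀ b, b ≠ j → c ∣ u i * v b := fun b hb => by
      have h1 := h i b
      rw [Function.update_self, Function.update_of_ne hb, sub_mul] at h1
      have h2 := k1 j b hij.symm hb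
      exact (dvd_sub_left h2).mp h1
    have k4 : c ∣ u i * v j := by
      have h1 := h i j
      rw [Function.update_self, Function.update_self] at h1
      have h2 : (u i - u j) * (v j + v i) = u i * v j + (u i * v i - u j * v j - u j * v i) := by
        ring
      rw [h2] at h1
      have h3 : c ∣ u i * v i - u j * v j - u j * v i :=
        dvd_sub (dvd_sub (k3 i hij) (k2 j hij.symm)) (k1 j i hij.symm hij)
      exact (dvd_add_left h3).mp h1
    intro a b
    by_cases ha : a = i <;> by_cases hb : b = j
    · subst ha; subst hb; exact k4
    · subst ha; exact k3 b hb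
    · subst hb; exact k2 a ha
    · exact k1 a b ha hb
  · intro hc a b
    by_cases ha : a = i <;> by_cases hb : b = j
    · subst ha; subst hb
      rw [Function.update_self, Function.update_self, sub_mul, mul_add, mul_add]
      exact dvd_sub (dvd_add (hc _ _) (hc _ _)) (dvd_add (hc _ _) (hc _ _))
    · subst ha
      rw [Function.update_self, Function.update_of_ne hb, sub_mul]
      exact dvd_sub (hc _ _) (hc _ _)
    · subst hb
      rw [Function.update_of_ne ha, Function.update_self, mul_add]
      exact dvd_add (hc _ _) (hc _ _)
    · rw [Function.update_of_ne ha, Function.update_of_ne hb]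
      exact hc _ _

/-- The inner product does not change. -/
lemma dot_move {n : ℕ} {u v : Fin n → ℤ} {i j : Fin n} (hij : i ≠ j) :
    ∑ k, Function.update u i (u i - u j) k * Function.update v j (v j + v i) k =
      ∑ k, u k * v k := by
  have e : ∀ k, Function.update u i (u i - u j) k * Function.update v j (v j + v i) k =
      u k * v k + ((if k = j then u j * v i else 0) - (if k = i then u j * v i else 0)) := by
    intro k
    by_cases hk : k = i
    · subst hk
      rw [Function.update_self, Function.update_of_ne hij, if_neg hij, if_pos rfl]; ring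
    · by_cases hk' : k = j
      · subst hk'
        rw [Function.update_of_ne hk, Function.update_self, if_pos rfl, if_neg hk]; ring
      · rw [Function.update_of_ne hk, Function.update_of_ne hk', if_neg hk', if_neg hk]; ring
  rw [Finset.sum_congr rfl (fun k _ => e k), Finset.sum_add_distrib, Finset.sum_sub_distrib,
    Finset.sum_ite_eq', Finset.sum_ite_eq', if_pos (Finset.mem_univ _), if_pos (Finset.mem_univ _)]
  ring

end Pool.Agent.R647.SS
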