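import Pool.Agent.R647.SS.Red

/-!
# Rank one perturbations of scalar matrices: invariants of shift equivalence over `ℤ`
-/

set_option autoImplicit false

namespace Pool.Agent.R647.SS

open Matrix Pool.Agent.TH441.SSE2

/-- Shift equivalence over `ℤ`. -/
def SEZ {n m : ℕ} (A : Matrix (Fin n) (Fin n) ℤ) (B : Matrix (Fin m) (Fin m) ℤ) : Prop :=
  ∃ l, 1 ≤ l ∧ ∃ (R : Matrix (Fin n) (Fin m) ℤ) (S : Matrix (Fin m) (Fin n) ℤ),
    A ^ l = R * S ∧ B ^ l = S * R ∧ A * R = R * B ∧ S * A = B * S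

lemma SEZ.symm {n m : ℕ} {A : Matrix (Fin n) (Fin n) ℤ} {B : Matrix (Fin m) (Fin m) ℤ}
    (h : SEZ A B) : SEZ B A := by
  obtain ⟨l, hl, R, S, h1, h2, h3, h4⟩ := h
  exact ⟨l, hl, S, R, h2, h1, h4.symm, h3.symm⟩

/-- The inner product of `u` and `v`. -/
def dt {n : ℕ} (u v : Fin n → ℤ) : ℤ := ∑ i, u i * v i

lemma vecMul_M {n : ℕ} (μ : ℤ) (u v x : Fin n → ℤ) (j : Fin n) :
    (x ᵥ* M μ u v) j = μ * x j + (∑ i, x i * u i) * v j := by
  simp only [Matrix.vecMul, dotProduct, M]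
  have e : ∀ i, x i * ((if i = j then μ else 0) + u i * v j) =
      (if i = j then x i * μ else 0) + x i * u i * v j := by
    intro i
    rw [mul_add, mul_ite, mul_zero]; ring
  rw [Finset.sum_congr rfl (fun i _ => e i), Finset.sum_add_distrib, Finset.sum_ite_eq',
    if_pos (Finset.mem_univ j), ← Finset.sum_mul]
  ring

lemma vecMul_pow_M {n : ℕ} (μ : ℤ) (u v : Fin n → ℤ) (k : ℕ) :
    v ᵥ* (M μ u v) ^ k = (μ + dt u v) ^ k • v := by
  induction k with
  | zero => simp
  | succ k ih =>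
    rw [pow_succ, ← Matrix.vecMul_vecMul, ih, Matrix.smul_vecMul]
    have : v ᵥ* M μ u v = (μ + dt u v) • v := by
      ext j
      rw [vecMul_M]
      have : ∑ i, v i * u i = dt u v := Finset.sum_congr rfl fun i _ => mul_comm _ _
      rw [this, Pi.smul_apply, smul_eq_mul]; ring
    rw [this, smul_smul, pow_succ]

lemma pow_M {n : ℕ} (μ : ℤ) (u v : Fin n → ℤ) (k : ℕ) : ∃ c : ℤ,
    c * dt u v = (μ + dt u v) ^ k - μ ^ k ∧
      ∀ i j, ((M μ u v) ^ k) i j = (if i = j then μ ^ k else 0) + c * (u i * v j) := by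
  induction k with
  | zero =>
    refine ⟨0, by simp, fun i j => ?_⟩
    rw [pow_zero, Matrix.one_apply]; simp
  | succ k ih =>
    obtain ⟨c, h1, h2⟩ := ih
    refine ⟨μ ^ k + c * (μ + dt u v), ?_, fun i j => ?_⟩
    · rw [add_mul, mul_assoc, mul_comm (μ + dt u v) (dt u v), ← mul_assoc, h1]; ring
    · rw [pow_succ, Matrix.mul_apply]
      have e : ∀ x, ((M μ u v) ^ k) i x * M μ u v x j =
          (if i = x then μ ^ k * M μ u v x j else 0) +
            ((if x = j then c * (u i * v x) * μ else 0) + c * u i * v j * (u x * v x)) := by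
        intro x
        rw [h2, add_mul, ite_mul, zero_mul]
        congr 1
        simp only [M]
        rw [mul_add, mul_ite, mul_zero]; ring
      rw [Finset.sum_congr rfl (fun x _ => e x), Finset.sum_add_distrib,
        Finset.sum_add_distrib, Finset.sum_ite_eq, if_pos (Finset.mem_univ i),
        Finset.sum_ite_eq', if_pos (Finset.mem_univ j), ← Finset.mul_sum]
      show μ ^ k * M μ u v i j + (c * (u i * v j) * μ + c * u i * v j * dt u v) = _
      simp only [M]
      by_cases hij : i = j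
      · rw [if_pos hij, if_pos hij]; ring
      · rw [if_neg hij, if_neg hij]; ring

lemma trace_pow_M {n : ℕ} (μ : ℤ) (u v : Fin n → ℤ) (k : ℕ) :
    ((M μ u v) ^ k).trace = (n - 1) * μ ^ k + (μ + dt u v) ^ k := by
  obtain ⟨c, h1, h2⟩ := pow_M μ u v k
  rw [Matrix.trace]
  simp only [Matrix.diag_apply]
  have e : ∀ i : Fin n, ((M μ u v) ^ k) i i = μ ^ k + c * (u i * v i) := fun i => by
    rw [h2, if_pos rfl]
  rw [Finset.sum_congr rfl (fun i _ => e i), Finset.sum_add_distrib, ← Finset.mul_sum,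
    Finset.sum_const, Finset.card_univ, Fintype.card_fin]
  show n • μ ^ k + c * dt u v = _
  rw [h1, nsmul_eq_mul]; ring

lemma dt_pos {n : ℕ} {u v : Fin n → ℤ} (hu : ∀ i, 1 ≤ u i) (hv : ∀ i, 1 ≤ v i) :
    (n : ℤ) ≤ dt u v := by
  have h1 : ∑ _i : Fin n, (1 : ℤ) ≤ dt u v := Finset.sum_le_sum fun i _ => by
    nlinarith [hu i, hv i]
  simpa using h1

/-- The dominant eigenvalue is an invariant. -/
lemma inv_dom {n m : ℕ} {μ μ' : ℤ} {u v : Fin n → ℤ} {u' v' : Fin m → ℤ}
    (hv : ∃ i, v i ≠ 0) (h0 : μ + dt u v ≠ 0) (h1 : μ + dt u v ≠ μ')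
    (h : SEZ (M μ u v) (M μ' u' v')) : μ' + dt u' v' = μ + dt u v := by
  obtain ⟨l, hl, R, S, e1, e2, e3, e4⟩ := h
  set lam := μ + dt u v with hlam
  set x := v ᵥ* R with hx
  have hxS : x ᵥ* S = lam ^ l • v := by
    rw [hx, Matrix.vecMul_vecMul, ← e1, vecMul_pow_M]
  have hxB : x ᵥ* M μ' u' v' = lam • x := by
    rw [hx, Matrix.vecMul_vecMul, ← e3, ← Matrix.vecMul_vecMul]
    have := vecMul_pow_M μ u v 1
    rw [pow_one, pow_one] at this
    rw [this, Matrix.smul_vecMul]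
  have hx0 : x ≠ 0 := by
    intro hz
    obtain ⟨i, hi⟩ := hv
    rw [hz, Matrix.zero_vecMul] at hxS
    have := congrFun hxS i
    rw [Pi.zero_apply, Pi.smul_apply, smul_eq_mul] at this
    exact mul_ne_zero (pow_ne_zero l h0) hi this.symm
  set s := ∑ i, x i * u' i with hs
  have hj : ∀ j, (lam - μ') * x j = s * v' j := by
    intro j
    have := congrFun hxB j
    rw [vecMul_M, Pi.smul_apply, smul_eq_mul] at this
    linarith
  have hsum : (lam - μ') * s = s * dt u' v' := by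
    rw [hs, Finset.mul_sum, dt, Finset.mul_sum]
    refine Finset.sum_congr rfl fun i _ => ?_
    have := hj i
    calc (lam - μ') * (x i * u' i) = ((lam - μ') * x i) * u' i := by ring
      _ = s * (u' i * v' i) := by rw [this]; ring
  have hs0 : s ≠ 0 := by
    intro hz
    apply hx0
    ext j
    have := hj j
    rw [hz, zero_mul] at this
    rcases mul_eq_zero.mp this with h | h
    · exact absurd (by linarith : lam = μ') h1
    · exact h
  have := mul_left_cancel₀ hs0 ((mul_comm s (lam - μ')).trans hsum)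
  linarith

lemma trace_eq {n m : ℕ} {A : Matrix (Fin n) (Fin n) ℤ} {B : Matrix (Fin m) (Fin m) ℤ}
    (h : SEZ A B) : ∃ l, 1 ≤ l ∧ (A ^ l).trace = (B ^ l).trace ∧
      (A ^ (l + 1)).trace = (B ^ (l + 1)).trace := by
  obtain ⟨l, hl, R, S, e1, e2, e3, e4⟩ := h
  refine ⟨l, hl, ?_, ?_⟩
  · rw [e1, e2, Matrix.trace_mul_comm]
  · rw [pow_succ, pow_succ, e1, e2, Matrix.mul_assoc, e4, ← Matrix.mul_assoc,
      Matrix.trace_mul_comm, ← Matrix.mul_assoc]

/-- The size is an invariant. -/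
lemma inv_size {n m : ℕ} {μ : ℤ} {u v : Fin n → ℤ} {u' v' : Fin m → ℤ} (hμ : μ ≠ 0)
    (hd : μ + dt u' v' = μ + dt u v) (h : SEZ (M μ u v) (M μ u' v')) : n = m := by
  obtain ⟨l, hl, h1, _⟩ := trace_eq h
  rw [trace_pow_M, trace_pow_M, hd] at h1
  have h2 : ((n : ℤ) - 1) * μ ^ l = (m - 1) * μ ^ l := by linarith
  have h3 := mul_right_cancel₀ (pow_ne_zero l hμ) h2
  have : (n : ℤ) = m := by linarith
  exact_mod_cast this

/-- The content is an invariant. -/
lemma inv_cont {n m : ℕ} {μ : ℤ} {u v : Fin n → ℤ} {u' v' : Fin m → ℤ}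
    (hd : μ + dt u' v' = μ + dt u v) (h : SEZ (M μ u v) (M μ u' v')) {c : ℤ}
    (hc : Cont u v c) (hco : IsCoprime c μ) : Cont u' v' c := by
  obtain ⟨l, hl, R, S, e1, e2, e3, e4⟩ := h
  have hsplit : ∀ {k : ℕ} (a b : Fin k → ℤ), M μ a b = μ • (1 : Matrix (Fin k) (Fin k) ℤ) +
      Matrix.of (fun i j => a i * b j) := by
    intro k a b
    ext i j
    simp only [M, Matrix.add_apply, Matrix.smul_apply, Matrix.one_apply, Matrix.of_apply,
      smul_eq_mul, mul_ite, mul_one, mul_zero]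
  set U : Matrix (Fin n) (Fin n) ℤ := Matrix.of (fun i j => u i * v j) with hU
  set U' : Matrix (Fin m) (Fin m) ℤ := Matrix.of (fun i j => u' i * v' j) with hU'
  have h1 : S * U = U' * S := by
    have h2 := e4
    rw [hsplit u v, hsplit u' v', Matrix.mul_add, Matrix.add_mul, Matrix.mul_smul,
      Matrix.smul_mul, Matrix.mul_one, Matrix.one_mul] at h2
    exact add_left_cancel h2
  have h2 : ∀ i j, c ∣ (U' * S) i j := by
    intro i j
    rw [← h1, Matrix.mul_apply]
    exact Finset.dvd_sum fun k _ => (hc k j).mul_left _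
  have h3 : ∀ i j, c ∣ (μ + dt u v) ^ l * (u' i * v' j) := by
    intro i j
    have h4 : (U' * S * R) i j = (μ + dt u v) ^ l * (u' i * v' j) := by
      rw [Matrix.mul_assoc, ← e2, Matrix.mul_apply]
      have h5 := congrFun (vecMul_pow_M μ u' v' l) j
      rw [Pi.smul_apply, smul_eq_mul, hd] at h5
      simp only [Matrix.vecMul, dotProduct] at h5
      simp only [hU', Matrix.of_apply]
      have h6 : ∀ x, u' i * v' x * (M μ u' v' ^ l) x j = u' i * (v' x * (M μ u' v' ^ l) x j) :=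
        fun x => by ring
      rw [Finset.sum_congr rfl (fun x _ => h6 x), ← Finset.mul_sum, h5]; ring
    rw [← h4, Matrix.mul_apply]
    exact Finset.dvd_sum fun k _ => (h2 i k).mul_right _
  have h4 : c ∣ dt u v := Finset.dvd_sum fun k _ => hc k k
  have h5 : IsCoprime c ((μ + dt u v) ^ l) := by
    apply IsCoprime.pow_right
    obtain ⟨k, hk⟩ := h4
    rw [hk]
    exact IsCoprime.add_mul_left_right hco k
  intro i j
  exact h5.dvd_of_dvd_mul_left (h3 i j)

/-- Perturbations of `I` and of `-I` are never shift equivalent. -/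
lemma inv_sign {n m : ℕ} (hn : 2 ≤ n) {u v : Fin n → ℤ} {u' v' : Fin m → ℤ}
    (hu : ∀ i, 1 ≤ u i) (hv : ∀ i, 1 ≤ v i)
    (h : SEZ (M 1 u v) (M (-1) u' v')) : False := by
  have h1 := dt_pos hu hv
  have hn' : (2 : ℤ) ≤ n := by exact_mod_cast hn
  have h2 := inv_dom (μ := 1) (μ' := -1) ⟨⟨0, by omega⟩, by linarith [hv ⟨0, by omega⟩]⟩
    (by linarith) (by linarith) h
  obtain ⟨l, hl, h3, h4⟩ := trace_eq h
  rw [trace_pow_M, trace_pow_M, h2, one_pow] at h3 h4
  have h5 : ((n : ℤ) - 1) = (m - 1) * (-1) ^ l := by linarith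
  have h6 : ((n : ℤ) - 1) = (m - 1) * (-1) ^ (l + 1) := by linarith
  rw [pow_succ] at h6
  have : ((n : ℤ) - 1) = - ((m - 1) * (-1) ^ l) := by rw [h6]; ring
  linarith

end Pool.Agent.R647.SS
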