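import Pool.Agent.R647.SS.Class
import Pool.Agent.Y321.SE2.Trans

/-!
# Rank one perturbations of scalar matrices: shift equivalence implies strong shift equivalence
-/

set_option autoImplicit false

namespace Pool.Agent.R647.SS

open Matrix Pool.Agent.TH441.SSE2

lemma SEZ_of_Q {n m : ℕ} {X : Matrix (Fin n) (Fin n) ℤ} {Y : Matrix (Fin m) (Fin m) ℤ}
    (h : Q X Y) : SEZ X Y := by
  have key : ∀ {X Y : SqZ}, Relation.ReflTransGen EZ X Y → SEZ X.2 Y.2 := by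
    intro X Y h
    induction h with
    | refl => exact ⟨1, le_rfl, X.2, 1, by simp, by simp, by simp, by simp⟩
    | @tail Y Z _ h2 ih =>
      obtain ⟨R, S, _, _, e1, e2⟩ := h2
      have h3 : SEZ Y.2 Z.2 := ⟨1, le_rfl, R, S, by rw [pow_one, e1], by rw [pow_one, e2],
        by rw [e1, e2, Matrix.mul_assoc], by rw [e1, e2, Matrix.mul_assoc]⟩
      exact Pool.Agent.Y321.SE2.se_trans ih h3
  exact key h

lemma SEZ.trans {n m p : ℕ} {A : Matrix (Fin n) (Fin n) ℤ} {B : Matrix (Fin m) (Fin m) ℤ}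
    {C : Matrix (Fin p) (Fin p) ℤ} (h : SEZ A B) (h' : SEZ B C) : SEZ A C :=
  Pool.Agent.Y321.SE2.se_trans h h'

lemma isCoprime_pm {ε : ℤ} (hε : ε = 1 ∨ ε = -1) (c : ℤ) : IsCoprime c ε := by
  rcases hε with h | h <;> rw [h]
  · exact isCoprime_one_right
  · exact (isCoprime_one_right).neg_right

lemma adm_pm {n : ℕ} {ε : ℤ} (hε : ε = 1 ∨ ε = -1) {u v : Fin n → ℤ} (hu : ∀ i, 1 ≤ u i)
    (hv : ∀ i, 1 ≤ v i) : Adm ε u v :=
  ⟨hu, hv, 1, by rcases hε with h | h <;> rw [h] <;> simp, fun _ _ => one_dvd _⟩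

/-- A `2 × 2` matrix of the class reaches a matrix `T`. -/
lemma reach_T {ε : ℤ} (hε : ε = 1 ∨ ε = -1) {u v : Fin 2 → ℤ} (hu : ∀ i, 1 ≤ u i)
    (hv : ∀ i, 1 ≤ v i) : ∃ y, 1 ≤ y ∧ y ≤ dt u v - 1 ∧ Q (M ε u v) (T ε (dt u v) y) := by
  obtain ⟨w, h1, _, h3, h4⟩ := red1 (∑ i, u i).toNat u v (adm_pm hε hu hv) (Int.self_le_toNat _)
  rw [T_eq] at h4
  have e : w 0 + w 1 = dt u v := by
    rw [Fin.sum_univ_two] at h3
    exact h3
  rw [e] at h4
  exact ⟨w 1, h1.2.1 1, by have := h1.2.1 0; linarith, h4⟩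

/-- In the class, shift equivalence over `ℤ` implies strong shift equivalence. -/
theorem main_pm {n m : ℕ} (hn : 2 ≤ n) (hm : 2 ≤ m) {ε ε' : ℤ} (hε : ε = 1 ∨ ε = -1)
    (hε' : ε' = 1 ∨ ε' = -1) {u v : Fin n → ℤ} {u' v' : Fin m → ℤ} (hu : ∀ i, 1 ≤ u i)
    (hv : ∀ i, 1 ≤ v i) (hu' : ∀ i, 1 ≤ u' i) (hv' : ∀ i, 1 ≤ v' i)
    (h : SEZ (M ε u v) (M ε' u' v')) : Q (M ε u v) (M ε' u' v') := by
  have hd1 := dt_pos hu hv
  have hn' : (2 : ℤ) ≤ n := by exact_mod_cast hn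
  have hee : ε = ε' := by
    rcases hε with h1 | h1 <;> rcases hε' with h2 | h2
    · rw [h1, h2]
    · exfalso
      rw [h1, h2] at h
      exact inv_sign hn hu hv h
    · exfalso
      rw [h1, h2] at h
      exact inv_sign hm hu' hv' h.symm
    · rw [h1, h2]
  subst hee
  have hd := inv_dom (μ := ε) (μ' := ε) ⟨⟨0, by omega⟩, by linarith [hv ⟨0, by omega⟩]⟩
    (by rcases hε with h1 | h1 <;> rw [h1] <;> linarith) (by linarith) h
  have hnm : n = m := inv_size (by rcases hε with h1 | h1 <;> rw [h1] <;> norm_num) hd h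
  subst hnm
  obtain hn2 | ⟨k, rfl⟩ : n = 2 ∨ ∃ k, n = k + 3 := by
    rcases Nat.lt_or_ge n 3 with h1 | h1
    · left; omega
    · right; exact ⟨n - 3, by omega⟩
  · subst hn2
    obtain ⟨y, y1, y2, q1⟩ := reach_T hε hu hv
    obtain ⟨z, z1, z2, q2⟩ := reach_T hε hu' hv'
    have hdd : dt u' v' = dt u v := by linarith
    rw [hdd] at q2 z2
    have h2 : SEZ (T ε (dt u v) y) (T ε (dt u v) z) :=
      ((SEZ_of_Q q1).symm.trans h).trans (SEZ_of_Q q2)
    exact (q1.trans (Q_of_rel2 hε y1 y2 z1 z2 (rel2_of_SEZ hε y1 y2 z1 z2 h2))).trans q2.symm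
  · refine Q_of_same (adm_pm hε hu hv) (adm_pm hε hu' hv') (by
      have : dt u v = dt u' v' := by linarith
      exact this) fun c => ⟨fun hc => inv_cont hd h hc (isCoprime_pm hε c), fun hc =>
        inv_cont hd.symm h.symm hc (isCoprime_pm hε c)⟩

/-- The invariants for a general scalar `μ`. -/
theorem main_inv {n m : ℕ} (hn : 2 ≤ n) {μ : ℤ} (hμ : μ ≠ 0) {u v : Fin n → ℤ}
    {u' v' : Fin m → ℤ} (ha : Adm μ u v)
    (hc : ∀ c, Cont u v c → IsCoprime c μ) (hc' : ∀ c, Cont u' v' c → IsCoprime c μ)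
    (h : SEZ (M μ u v) (M μ u' v')) :
    n = m ∧ dt u v = dt u' v' ∧ ∀ c, Cont u v c ↔ Cont u' v' c := by
  obtain ⟨hu, hv, g, hg, hcg⟩ := ha
  have hg1 : 1 ≤ g := le_trans (Int.one_le_abs hμ) hg
  have hterm : ∀ i, g ≤ u i * v i := fun i =>
    le_of_dvd_pos (hcg i i) (mul_pos (by linarith [hu i]) (by linarith [hv i]))
  have hdt : 2 * g ≤ dt u v := by
    have h1 : ∑ _i : Fin n, g ≤ dt u v := Finset.sum_le_sum fun i _ => hterm i
    rw [Finset.sum_const, Finset.card_univ, Fintype.card_fin, nsmul_eq_mul] at h1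
    have h2 : (2 : ℤ) ≤ n := by exact_mod_cast hn
    nlinarith
  have hμg := (abs_le.mp hg).1
  have hd := inv_dom (μ := μ) (μ' := μ) ⟨⟨0, by omega⟩, by linarith [hv ⟨0, by omega⟩]⟩
    (by linarith) (by linarith) h
  exact ⟨inv_size hμ hd h, by linarith, fun c => ⟨fun h1 => inv_cont hd h h1 (hc c h1), fun h1 =>
    inv_cont hd.symm h.symm h1 (hc' c h1)⟩⟩

lemma trace_M {n : ℕ} (μ : ℤ) (u v : Fin n → ℤ) : (M μ u v).trace = n * μ + dt u v := by
  have := trace_pow_M μ u v 1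
  rw [pow_one, pow_one, pow_one] at this
  rw [this]; ring

end Pool.Agent.R647.SS
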