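import Pool.Agent.R647.SS.Main

/-!
# The classification, stated for matrices over `ℕ`
-/

set_option autoImplicit false

namespace Pool.Agent.R647.SS

open Matrix Pool.Agent.TH441.SSE2

/-- The members of the class: size at least two, irreducible, `A - μ I` of rank at most one. -/
def RO {n : ℕ} (μ : ℤ) (A : Matrix (Fin n) (Fin n) ℕ) : Prop := 2 ≤ n ∧ Irr A ∧ RkOne (Dv μ A)

/-- The greatest common divisor of the entries of `A - μ I`. -/
def ct {n : ℕ} (μ : ℤ) (A : Matrix (Fin n) (Fin n) ℕ) : ℕ :=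
  Finset.univ.gcd fun p : Fin n × Fin n => (Dv μ A p.1 p.2).natAbs

lemma dvd_ct {n : ℕ} (μ : ℤ) (A : Matrix (Fin n) (Fin n) ℕ) (c : ℕ) :
    c ∣ ct μ A ↔ ∀ i j, (c : ℤ) ∣ Dv μ A i j := by
  rw [ct, Finset.dvd_gcd_iff]
  constructor
  · intro h i j
    exact Int.natCast_dvd.mpr (h (i, j) (Finset.mem_univ _))
  · rintro h ⟨i, j⟩ -
    exact Int.natCast_dvd.mp (h i j)

lemma cont_iff {n : ℕ} {μ : ℤ} {A : Matrix (Fin n) (Fin n) ℕ} {u v : Fin n → ℤ}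
    (h : ∀ i j, Dv μ A i j = u i * v j) (c : ℤ) : Cont u v c ↔ c.natAbs ∣ ct μ A := by
  rw [dvd_ct]
  constructor
  · intro hc i j
    rw [h, Int.natAbs_dvd]
    exact hc i j
  · intro hc i j
    have := hc i j
    rwa [h, Int.natAbs_dvd] at this

lemma cont_all {n m : ℕ} {μ : ℤ} {A : Matrix (Fin n) (Fin n) ℕ} {B : Matrix (Fin m) (Fin m) ℕ}
    {u v : Fin n → ℤ} {u' v' : Fin m → ℤ} (h : ∀ i j, Dv μ A i j = u i * v j)
    (h' : ∀ i j, Dv μ B i j = u' i * v' j) :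
    (∀ c, Cont u v c ↔ Cont u' v' c) ↔ ct μ A = ct μ B := by
  constructor
  · intro hc
    apply Nat.dvd_antisymm
    · have := (cont_iff h (ct μ A : ℤ)).mpr (by rw [Int.natAbs_natCast])
      have := (cont_iff h' _).mp ((hc _).mp this)
      rwa [Int.natAbs_natCast] at this
    · have := (cont_iff h' (ct μ B : ℤ)).mpr (by rw [Int.natAbs_natCast])
      have := (cont_iff h _).mp ((hc _).mpr this)
      rwa [Int.natAbs_natCast] at this
  · intro hc c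
    rw [cont_iff h, cont_iff h', hc]

/-- `A` is in the class for `μ = 1` or for `μ = -1`. -/
def InC {n : ℕ} (A : Matrix (Fin n) (Fin n) ℕ) : Prop := RO 1 A ∨ RO (-1) A

lemma normal_form {n : ℕ} {A : Matrix (Fin n) (Fin n) ℕ} (h : InC A) :
    2 ≤ n ∧ ∃ ε : ℤ, (ε = 1 ∨ ε = -1) ∧ ∃ u v : Fin n → ℤ, (∀ i, 1 ≤ u i) ∧ (∀ i, 1 ≤ v i) ∧
      A.map (Nat.cast : ℕ → ℤ) = M ε u v := by
  have key : ∀ ε : ℤ, (ε = 1 ∨ ε = -1) → RO ε A → 2 ≤ n ∧ ∃ ε : ℤ, (ε = 1 ∨ ε = -1) ∧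
      ∃ u v : Fin n → ℤ, (∀ i, 1 ≤ u i) ∧ (∀ i, 1 ≤ v i) ∧
      A.map (Nat.cast : ℕ → ℤ) = M ε u v := by
    rintro ε hε ⟨hn, hA, hr⟩
    refine ⟨hn, ?_⟩
    obtain hn2 | ⟨k, rfl⟩ : n = 2 ∨ ∃ k, n = k + 3 := by
      rcases Nat.lt_or_ge n 3 with h1 | h1
      · left; omega
      · right; exact ⟨n - 3, by omega⟩
    · subst hn2
      obtain ⟨ε', hε', u, v, hu, hv, h⟩ := class_two hε hA hr
      exact ⟨ε', hε', u, v, hu, hv, map_eq_M h⟩
    · obtain ⟨u, v, hu, hv, h⟩ := class_three hA hr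
      exact ⟨ε, hε, u, v, hu, hv, map_eq_M h⟩
  rcases h with h | h
  · exact key 1 (Or.inl rfl) h
  · exact key (-1) (Or.inr rfl) h

theorem final_one {n m : ℕ} {A : Matrix (Fin n) (Fin n) ℕ} {B : Matrix (Fin m) (Fin m) ℕ}
    (hA : InC A) (hB : InC B) (h : SEZ (A.map (Nat.cast : ℕ → ℤ)) (B.map (Nat.cast : ℕ → ℤ))) :
    Q (A.map (Nat.cast : ℕ → ℤ)) (B.map (Nat.cast : ℕ → ℤ)) := by
  obtain ⟨hn, ε, hε, u, v, hu, hv, e⟩ := normal_form hA
  obtain ⟨hm, ε', hε', u', v', hu', hv', e'⟩ := normal_form hB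
  rw [e, e'] at h ⊢
  exact main_pm hn hm hε hε' hu hv hu' hv' h

/-- The condition on `μ`: it is `± 1`, or the content is at least `|μ|` and prime to `μ`. -/
def Lg {n : ℕ} (μ : ℤ) (A : Matrix (Fin n) (Fin n) ℕ) : Prop :=
  μ.natAbs = 1 ∨ (μ.natAbs ≤ ct μ A ∧ (ct μ A).Coprime μ.natAbs)

lemma adm_of {n : ℕ} {μ : ℤ} {A : Matrix (Fin n) (Fin n) ℕ} (hL : Lg μ A)
    {u v : Fin n → ℤ} (hu : ∀ i, 1 ≤ u i) (hv : ∀ i, 1 ≤ v i)
    (h : ∀ i j, Dv μ A i j = u i * v j) :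
    Adm μ u v ∧ ∀ c, Cont u v c → IsCoprime c μ := by
  rcases hL with h1 | ⟨h1, h2⟩
  · have hε : μ = 1 ∨ μ = -1 := Int.natAbs_eq_natAbs_iff.mp h1
    exact ⟨adm_pm hε hu hv, fun c _ => isCoprime_pm hε c⟩
  · refine ⟨⟨hu, hv, ct μ A, ?_, ?_⟩, ?_⟩
    · rw [Int.abs_eq_natAbs]
      exact_mod_cast h1
    · rw [cont_iff h, Int.natAbs_natCast]
    · intro c hc
      rw [cont_iff h] at hc
      rw [← Int.isCoprime_iff_gcd_eq_one.symm.eq]
      exact (Nat.Coprime.coprime_dvd_left hc h2)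

lemma trace_cast {n : ℕ} (A : Matrix (Fin n) (Fin n) ℕ) :
    ((A.trace : ℕ) : ℤ) = (A.map (Nat.cast : ℕ → ℤ)).trace := by
  simp [Matrix.trace]

theorem final_two {n m : ℕ} (hn : 3 ≤ n) (hm : 3 ≤ m) {μ : ℤ} (hμ : μ ≠ 0)
    {A : Matrix (Fin n) (Fin n) ℕ} {B : Matrix (Fin m) (Fin m) ℕ} (hA : RO μ A) (hB : RO μ B)
    (lA : Lg μ A) (lB : Lg μ B) :
    (SEZ (A.map (Nat.cast : ℕ → ℤ)) (B.map (Nat.cast : ℕ → ℤ)) →
      n = m ∧ A.trace = B.trace ∧ ct μ A = ct μ B) ∧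
    (n = m ∧ A.trace = B.trace ∧ ct μ A = ct μ B →
      Q (A.map (Nat.cast : ℕ → ℤ)) (B.map (Nat.cast : ℕ → ℤ))) := by
  obtain ⟨k, rfl⟩ : ∃ k, n = k + 3 := ⟨n - 3, by omega⟩
  obtain ⟨l, rfl⟩ : ∃ l, m = l + 3 := ⟨m - 3, by omega⟩
  obtain ⟨u, v, hu, hv, h⟩ := class_three hA.2.1 hA.2.2
  obtain ⟨u', v', hu', hv', h'⟩ := class_three hB.2.1 hB.2.2
  obtain ⟨aA, cA⟩ := adm_of lA hu hv h
  obtain ⟨aB, cB⟩ := adm_of lB hu' hv' h'
  have eA := map_eq_M h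
  have eB := map_eq_M h'
  have tA : ((A.trace : ℕ) : ℤ) = (k + 3 : ℕ) * μ + dt u v := by
    rw [trace_cast, eA, trace_M]
  have tB : ((B.trace : ℕ) : ℤ) = (l + 3 : ℕ) * μ + dt u' v' := by
    rw [trace_cast, eB, trace_M]
  constructor
  · intro hs
    rw [eA, eB] at hs
    obtain ⟨h1, h2, h3⟩ := main_inv (by omega) hμ aA cA cB hs
    have h4 : k = l := by omega
    refine ⟨h1, ?_, (cont_all h h').mp h3⟩
    have : ((A.trace : ℕ) : ℤ) = ((B.trace : ℕ) : ℤ) := by rw [tA, tB, h2, h4]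
    exact_mod_cast this
  · rintro ⟨h1, h2, h3⟩
    have h4 : k = l := by omega
    subst h4
    rw [eA, eB]
    refine Q_of_same aA aB ?_ ((cont_all h h').mpr h3)
    have : ((A.trace : ℕ) : ℤ) = ((B.trace : ℕ) : ℤ) := by rw [h2]
    rw [tA, tB] at this
    have h5 : dt u v = dt u' v' := by linarith
    exact h5

/-- The `2 × 2` representatives. -/
def TN (ε : ℤ) (N y : ℕ) : Matrix (Fin 2) (Fin 2) ℕ :=
  !![(ε + N - y).toNat, y; N - y, (ε + y).toNat]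

lemma TN_map {ε : ℤ} (hε : ε = 1 ∨ ε = -1) {N y : ℕ} (h1 : 1 ≤ y) (h2 : y < N) :
    (TN ε N y).map (Nat.cast : ℕ → ℤ) = T ε N y := by
  have h3 : (1 : ℤ) ≤ y := by exact_mod_cast h1
  have h4 : (y : ℤ) + 1 ≤ N := by exact_mod_cast h2
  ext i j
  fin_cases i <;> fin_cases j
  · show (((ε + N - y).toNat : ℕ) : ℤ) = ε + N - y
    exact Int.toNat_of_nonneg (by rcases hε with h | h <;> rw [h] <;> linarith)
  · rfl
  · show ((N - y : ℕ) : ℤ) = N - y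
    exact Nat.cast_sub h2.le
  · show (((ε + y).toNat : ℕ) : ℤ) = ε + y
    exact Int.toNat_of_nonneg (by rcases hε with h | h <;> rw [h] <;> linarith)

lemma TN_mem {ε : ℤ} (hε : ε = 1 ∨ ε = -1) {N y : ℕ} (h1 : 1 ≤ y) (h2 : y < N) :
    RO ε (TN ε N y) := by
  refine ⟨le_rfl, ?_, ?_⟩
  · intro i j
    by_cases hij : i = j
    · subst hij
      exact ⟨0, by simp⟩
    · refine ⟨1, ?_⟩
      rw [pow_one]
      fin_cases i <;> fin_cases j
      · exact absurd rfl hij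
      · show y ≠ 0
        omega
      · show N - y ≠ 0
        omega
      · exact absurd rfl hij
  · intro i j k l
    have e : ∀ i j, Dv ε (TN ε N y) i j = (fun _ => 1 : Fin 2 → ℤ) i * (![(N : ℤ) - y, y]) j := by
      intro i j
      have e1 := TN_map hε h1 h2
      rw [Dv, e1, T_eq']
      simp only [Matrix.sub_apply, Matrix.smul_apply, Matrix.one_apply, M, smul_eq_mul]
      split_ifs <;> simp
    rw [e, e, e, e]
    ring

theorem final_three {A : Matrix (Fin 2) (Fin 2) ℕ} (hA : InC A) :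
    ∃ ε : ℤ, (ε = 1 ∨ ε = -1) ∧ ∃ N y : ℕ, 1 ≤ y ∧ y < N ∧
      Q (A.map (Nat.cast : ℕ → ℤ)) ((TN ε N y).map (Nat.cast : ℕ → ℤ)) := by
  obtain ⟨_, ε, hε, u, v, hu, hv, e⟩ := normal_form hA
  obtain ⟨y, y1, y2, q⟩ := reach_T hε hu hv
  have hd : 0 ≤ dt u v := by linarith
  have e1 : ((dt u v).toNat : ℤ) = dt u v := Int.toNat_of_nonneg hd
  have e2 : (y.toNat : ℤ) = y := Int.toNat_of_nonneg (by linarith)
  have k1 : 1 ≤ y.toNat := by omega
  have k2 : y.toNat < (dt u v).toNat := by omega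
  refine ⟨ε, hε, (dt u v).toNat, y.toNat, k1, k2, ?_⟩
  rw [TN_map hε k1 k2, e1, e2, e]
  exact q

theorem final_four {ε ε' : ℤ} (hε : ε = 1 ∨ ε = -1) (hε' : ε' = 1 ∨ ε' = -1) {N y N' y' : ℕ}
    (h1 : 1 ≤ y) (h2 : y < N) (h1' : 1 ≤ y') (h2' : y' < N') :
    (SEZ ((TN ε N y).map (Nat.cast : ℕ → ℤ)) ((TN ε' N' y').map (Nat.cast : ℕ → ℤ)) →
      ε = ε' ∧ N = N' ∧ Rel2 ε N y y') ∧
    (ε = ε' ∧ N = N' ∧ Rel2 ε N y y' →
      Q ((TN ε N y).map (Nat.cast : ℕ → ℤ)) ((TN ε' N' y').map (Nat.cast : ℕ → ℤ))) := by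
  have a1 : (1 : ℤ) ≤ y := by exact_mod_cast h1
  have a2 : (y : ℤ) ≤ N - 1 := by have : (y : ℤ) + 1 ≤ N := by exact_mod_cast h2
                                  linarith
  have a1' : (1 : ℤ) ≤ y' := by exact_mod_cast h1'
  have a2' : (y' : ℤ) ≤ N' - 1 := by have : (y' : ℤ) + 1 ≤ N' := by exact_mod_cast h2'
                                     linarith
  rw [TN_map hε h1 h2, TN_map hε' h1' h2']
  constructor
  · intro h
    have hw : ∀ i : Fin 2, (1 : ℤ) ≤ (fun _ => 1 : Fin 2 → ℤ) i := fun _ => le_rfl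
    have hv : ∀ i : Fin 2, (1 : ℤ) ≤ (![(N : ℤ) - y, y]) i := by
      intro i
      fin_cases i
      · show (1 : ℤ) ≤ (N : ℤ) - y
        linarith
      · exact a1
    have hv' : ∀ i : Fin 2, (1 : ℤ) ≤ (![(N' : ℤ) - y', y']) i := by
      intro i
      fin_cases i
      · show (1 : ℤ) ≤ (N' : ℤ) - y'
        linarith
      · exact a1'
    have hh := h
    rw [T_eq', T_eq'] at hh
    have hee : ε = ε' := by
      rcases hε with k1 | k1 <;> rcases hε' with k2 | k2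
      · rw [k1, k2]
      · exfalso
        rw [k1, k2] at hh
        exact inv_sign le_rfl hw hv hh
      · exfalso
        rw [k1, k2] at hh
        exact inv_sign le_rfl hw hv' hh.symm
      · rw [k1, k2]
    subst hee
    have d1 : dt (fun _ => 1) (![(N : ℤ) - y, y]) = N := by
      rw [dt, Fin.sum_univ_two]; simp
    have d2 : dt (fun _ => 1) (![(N' : ℤ) - y', y']) = N' := by
      rw [dt, Fin.sum_univ_two]; simp
    have hd := inv_dom (μ := ε) (μ' := ε) ⟨0, by have := hv 0; linarith⟩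
      (by rw [d1]; rcases hε with k1 | k1 <;> rw [k1] <;> linarith)
      (by rw [d1]; linarith) hh
    rw [d1, d2] at hd
    have hN : (N : ℤ) = N' := by linarith
    have hN' : N = N' := by exact_mod_cast hN
    subst hN'
    exact ⟨rfl, rfl, rel2_of_SEZ hε a1 a2 a1' a2' h⟩
  · rintro ⟨rfl, rfl, h⟩
    exact Q_of_rel2 hε a1 a2 a1' a2' h

end Pool.Agent.R647.SS
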