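import Pool.Agent.R647.SS.Core

/-!
# Rank one perturbations of scalar matrices: reduction to a canonical form
-/

set_option autoImplicit false

namespace Pool.Agent.R647.SS

open Matrix Pool.Agent.TH441.SSE2

lemma sum_upd {n : ℕ} (u : Fin n → ℤ) (i j : Fin n) :
    ∑ k, Function.update u i (u i - u j) k = ∑ k, u k - u j := by
  have e : ∀ k, Function.update u i (u i - u j) k = u k - (if k = i then u j else 0) := by
    intro k
    by_cases hk : k = i
    · subst hk; rw [Function.update_self, if_pos rfl]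
    · rw [Function.update_of_ne hk, if_neg hk, sub_zero]
  rw [Finset.sum_congr rfl (fun k _ => e k), Finset.sum_sub_distrib, Finset.sum_ite_eq',
    if_pos (Finset.mem_univ _)]

/-- The vector `u` can be reduced to the all one vector. -/
lemma red1 {n : ℕ} {μ : ℤ} (B : ℕ) : ∀ u v : Fin n → ℤ, Adm μ u v → ∑ i, u i ≤ B →
    ∃ w : Fin n → ℤ, Adm μ (fun _ => 1) w ∧ (∀ c, Cont (fun _ => 1) w c ↔ Cont u v c) ∧
      ∑ i, w i = ∑ i, u i * v i ∧ Q (M μ u v) (M μ (fun _ => 1) w) := by
  induction B with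
  | zero =>
    intro u v h hB
    obtain ⟨hu, hv, g, hg, hc⟩ := h
    have hn : n = 0 := by
      by_contra hn
      have h1 : ∑ _i : Fin n, (1 : ℤ) ≤ ∑ i, u i := Finset.sum_le_sum fun i _ => hu i
      simp at h1
      push_cast at hB
      have : (1 : ℤ) ≤ n := by exact_mod_cast Nat.one_le_iff_ne_zero.mpr hn
      linarith
    subst hn
    refine ⟨v, ⟨fun i => i.elim0, fun i => i.elim0, g, hg, fun i => i.elim0⟩,
      fun c => ⟨fun _ i => i.elim0, fun _ i => i.elim0⟩, by simp, ?_⟩
    have e : M μ u v = M μ (fun _ => 1) v := by ext i; exact i.elim0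
    rw [e]
    exact Q.refl _
  | succ B ih =>
    intro u v h hB
    by_cases hex : ∃ i j, u j < u i
    · obtain ⟨i, j, hlt⟩ := hex
      have hij : i ≠ j := by rintro rfl; exact lt_irrefl _ hlt
      have hB' : ∑ k, Function.update u i (u i - u j) k ≤ B := by
        rw [sum_upd]
        have := h.1 j
        push_cast at hB
        linarith
      obtain ⟨w, h1, h2, h3, h4⟩ := ih _ _ (adm_move h hlt) hB'
      refine ⟨w, h1, fun c => (h2 c).trans (cont_move hij c), h3.trans (dot_move hij),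
        (move h hij hlt).trans h4⟩
    · push Not at hex
      rcases Nat.eq_zero_or_pos n with hn | hn
      · subst hn
        obtain ⟨hu, hv, g, hg, hc⟩ := h
        refine ⟨v, ⟨fun i => i.elim0, fun i => i.elim0, g, hg, fun i => i.elim0⟩,
          fun c => ⟨fun _ i => i.elim0, fun _ i => i.elim0⟩, by simp, ?_⟩
        have e : M μ u v = M μ (fun _ => 1) v := by ext i; exact i.elim0
        rw [e]
        exact Q.refl _
      · set i0 : Fin n := ⟨0, hn⟩
        have hd : ∀ i, u i = u i0 := fun i => le_antisymm (hex i i0) (hex i0 i)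
        obtain ⟨hu, hv, g, hg, hc⟩ := h
        refine ⟨fun i => u i0 * v i, ⟨fun _ => le_rfl, fun i => ?_, g, hg, fun i j => ?_⟩,
          fun c => ⟨fun h i j => ?_, fun h i j => ?_⟩, ?_, ?_⟩
        · show 1 ≤ u i0 * v i
          have h1 := hu i0
          have h2 := hv i
          nlinarith
        · show g ∣ 1 * (u i0 * v j)
          rw [one_mul]; exact hc i0 j
        · have h1 := h i j
          rw [one_mul] at h1
          rw [hd i]; exact h1
        · show c ∣ 1 * (u i0 * v j)
          rw [one_mul]; exact h i0 j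
        · exact Finset.sum_congr rfl fun i _ => by rw [hd i]
        · have e : M μ u v = M μ (fun _ => 1) (fun i => u i0 * v i) := by
            ext i j
            simp only [M]
            rw [hd i]; ring
          rw [e]
          exact Q.refl _

/-- Two vectors linked by moves. -/
structure Lk {n : ℕ} (μ : ℤ) (w w' : Fin n → ℤ) : Prop where
  adm : Adm μ (fun _ => 1) w'
  cont : ∀ c, Cont (fun _ : Fin n => 1) w' c ↔ Cont (fun _ => 1) w c
  sum : ∑ i, w' i = ∑ i, w i
  q : Q (M μ (fun _ => 1) w) (M μ (fun _ => 1) w')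

lemma Lk.trans {n : ℕ} {μ : ℤ} {w w' w'' : Fin n → ℤ} (h : Lk μ w w') (h' : Lk μ w' w'') :
    Lk μ w w'' :=
  ⟨h'.adm, fun c => (h'.cont c).trans (h.cont c), h'.sum.trans h.sum, h.q.trans h'.q⟩

lemma Lk.refl {n : ℕ} {μ : ℤ} {w : Fin n → ℤ} (h : Adm μ (fun _ => 1) w) : Lk μ w w :=
  ⟨h, fun _ => Iff.rfl, rfl, Q.refl _⟩

/-- Shifting `w_i` units from `j` to `k`. -/
lemma shift {n : ℕ} {μ : ℤ} {w : Fin n → ℤ} (h : Adm μ (fun _ => 1) w) {i j k : Fin n}
    (hij : i ≠ j) (hik : i ≠ k) (hjk : j ≠ k) (hlt : w i < w j) :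
    Lk μ w (Function.update (Function.update w j (w j - w i)) k (w k + w i)) := by
  set u : Fin n → ℤ := Function.update (fun _ => 1) i 2 with hu
  set v : Fin n → ℤ := Function.update w j (w j - w i) with hv
  obtain ⟨_, hw, g, hg, hc⟩ := h
  have hgw : ∀ a, g ∣ w a := fun a => by
    have := hc a a
    rwa [one_mul] at this
  have hgv : ∀ a, g ∣ v a := fun a => by
    by_cases ha : a = j
    · subst ha; rw [hv, Function.update_self]; exact dvd_sub (hgw _) (hgw _)
    · rw [hv, Function.update_of_ne ha]; exact hgw _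
  have hui : u i = 2 := by rw [hu, Function.update_self]
  have huk : ∀ a, a ≠ i → u a = 1 := fun a ha => by rw [hu, Function.update_of_ne ha]
  have hvi : v i = w i := by rw [hv, Function.update_of_ne hij]
  have hvk : v k = w k := by rw [hv, Function.update_of_ne hjk.symm]
  have hvj : v j = w j - w i := by rw [hv, Function.update_self]
  have hadm : Adm μ u v := by
    refine ⟨fun a => ?_, fun a => ?_, g, hg, fun a b => (hgv b).mul_left _⟩
    · by_cases ha : a = i
      · subst ha; rw [hui]; norm_num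
      · rw [huk a ha]
    · by_cases ha : a = j
      · subst ha; rw [hvj]; linarith
      · rw [hv, Function.update_of_ne ha]; exact hw a
  have hu1 : ∀ a, a ≠ i → Function.update u i (u i - u a) = fun _ => 1 := by
    intro a ha
    ext b
    by_cases hb : b = i
    · subst hb; rw [Function.update_self, hui, huk a ha]; norm_num
    · rw [Function.update_of_ne hb, huk b hb]
  have hlt1 : ∀ a, a ≠ i → u a < u i := fun a ha => by rw [hui, huk a ha]; norm_num
  have ev1 : Function.update v j (v j + v i) = w := by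
    rw [hvj, hvi, hv, Function.update_idem]
    ext b
    by_cases hb : b = j
    · subst hb; rw [Function.update_self]; ring
    · rw [Function.update_of_ne hb]
  have ev2 : Function.update v k (v k + v i) = Function.update v k (w k + w i) := by
    rw [hvk, hvi]
  have m1 := move hadm hij (hlt1 j hij.symm)
  have m2 := move hadm hik (hlt1 k hik.symm)
  have c1 : ∀ c, _ := fun c => cont_move (u := u) (v := v) hij c
  have c2 : ∀ c, _ := fun c => cont_move (u := u) (v := v) hik c
  have d1 := dot_move (u := u) (v := v) hij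
  have d2 := dot_move (u := u) (v := v) hik
  have a2 := adm_move hadm (hlt1 k hik.symm)
  rw [hu1 j hij.symm, ev1] at m1 d1
  rw [hu1 k hik.symm, ev2] at m2 a2 d2
  simp only [hu1 j hij.symm, ev1] at c1
  simp only [hu1 k hik.symm, ev2] at c2
  simp only [one_mul] at d1 d2
  exact ⟨a2, fun c => (c2 c).trans (c1 c).symm, d2.trans d1.symm, m1.symm.trans m2⟩

variable {m : ℕ}

lemma n10 : (1 : Fin (m + 3)) ≠ 0 := by
  intro h
  have := congrArg Fin.val h
  have e1 : (1 : Fin (m + 3)).val = 1 % (m + 3) := rfl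
  have e0 : (0 : Fin (m + 3)).val = 0 := rfl
  rw [e1, e0, Nat.mod_eq_of_lt (by omega)] at this
  omega

lemma n12 : (1 : Fin (m + 3)) ≠ 2 := by
  intro h
  have := congrArg Fin.val h
  have e1 : (1 : Fin (m + 3)).val = 1 % (m + 3) := rfl
  have e2 : (2 : Fin (m + 3)).val = 2 % (m + 3) := rfl
  rw [e1, e2, Nat.mod_eq_of_lt (by omega), Nat.mod_eq_of_lt (by omega)] at this
  omega

lemma n02 : (0 : Fin (m + 3)) ≠ 2 := by
  intro h
  have := congrArg Fin.val h
  have e0 : (0 : Fin (m + 3)).val = 0 := rfl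
  have e2 : (2 : Fin (m + 3)).val = 2 % (m + 3) := rfl
  rw [e0, e2, Nat.mod_eq_of_lt (by omega)] at this
  omega

/-- All entries with index different from `0` can be made equal. -/
lemma stepA {μ : ℤ} (B : ℕ) : ∀ w : Fin (m + 3) → ℤ, Adm μ (fun _ => 1) w →
    ∑ i, w i - w 0 ≤ B → ∃ (w' : Fin (m + 3) → ℤ) (d : ℤ), Lk μ w w' ∧
      (∀ l, l ≠ 0 → w' l = d) ∧ d ≤ w 1 := by
  induction B with
  | zero =>
    intro w h hB
    exfalso
    have h1 : w 0 + w 1 ≤ ∑ i, w i := by
      have h2 : ∑ i ∈ ({0, 1} : Finset (Fin (m + 3))), w i ≤ ∑ i, w i :=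
        Finset.sum_le_sum_of_subset_of_nonneg (Finset.subset_univ _)
          (fun i _ _ => by linarith [h.2.1 i])
      rwa [Finset.sum_pair n10.symm] at h2
    have h3 := h.2.1 1
    push_cast at hB
    linarith
  | succ B ih =>
    intro w h hB
    by_cases hex : ∃ i l, i ≠ 0 ∧ l ≠ 0 ∧ w i < w l
    · obtain ⟨i, l, hi, hl, hlt⟩ := hex
      have hil : i ≠ l := by rintro rfl; exact lt_irrefl _ hlt
      have hs := shift h hil hi hl hlt
      set w1 := Function.update (Function.update w l (w l - w i)) 0 (w 0 + w i) with hw1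
      have e0 : w1 0 = w 0 + w i := by rw [hw1, Function.update_self]
      have hB' : ∑ i, w1 i - w1 0 ≤ B := by
        rw [hs.sum, e0]
        have := h.2.1 i
        push_cast at hB
        linarith
      obtain ⟨w', d, h1, h2, h3⟩ := ih w1 hs.adm hB'
      refine ⟨w', d, hs.trans h1, h2, h3.trans ?_⟩
      have h10 : (1 : Fin (m + 3)) ≠ 0 := n10
      rw [hw1, Function.update_of_ne h10]
      by_cases hl1 : (1 : Fin (m + 3)) = l
      · subst hl1
        rw [Function.update_self]
        linarith [h.2.1 i]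
      · rw [Function.update_of_ne hl1]
    · push Not at hex
      have h10 : (1 : Fin (m + 3)) ≠ 0 := n10
      exact ⟨w, w 1, Lk.refl h, fun l hl => le_antisymm (hex 1 l h10 hl) (hex l 1 hl h10), le_rfl⟩

lemma shT {μ : ℤ} (t : ℕ) : ∀ w : Fin (m + 3) → ℤ, Adm μ (fun _ => 1) w → t * w 1 < w 0 →
    ∃ w' : Fin (m + 3) → ℤ, Lk μ w w' ∧ w' 0 = w 0 - t * w 1 ∧ w' 1 = w 1 := by
  have h10 : (1 : Fin (m + 3)) ≠ 0 := n10
  have h12 : (1 : Fin (m + 3)) ≠ 2 := n12
  have h02 : (0 : Fin (m + 3)) ≠ 2 := n02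
  induction t with
  | zero => intro w h _; exact ⟨w, Lk.refl h, by simp, rfl⟩
  | succ t ih =>
    intro w h hlt
    push_cast at hlt
    have h1 := h.2.1 1
    have hlt' : w 1 < w 0 := by nlinarith
    have hs := shift h h10 h12 h02 hlt'
    set w1 := Function.update (Function.update w 0 (w 0 - w 1)) 2 (w 2 + w 1) with hw1
    have e0 : w1 0 = w 0 - w 1 := by
      rw [hw1, Function.update_of_ne h02, Function.update_self]
    have e1 : w1 1 = w 1 := by
      rw [hw1, Function.update_of_ne h12, Function.update_of_ne h10]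
    obtain ⟨w', a1, a2, a3⟩ := ih w1 hs.adm (by rw [e0, e1]; linarith)
    refine ⟨w', hs.trans a1, ?_, ?_⟩
    · rw [a2, e0, e1]; push_cast; ring
    · rw [a3, e1]

lemma canon {μ : ℤ} (B : ℕ) : ∀ (w : Fin (m + 3) → ℤ) (d : ℤ), Adm μ (fun _ => 1) w →
    (∀ l, l ≠ 0 → w l = d) → d ≤ B → ∃ (w' : Fin (m + 3) → ℤ) (g : ℤ), Lk μ w w' ∧
      (∀ l, l ≠ 0 → w' l = g) ∧ g ∣ w' 0 := by
  have h10 : (1 : Fin (m + 3)) ≠ 0 := n10
  have h12 : (1 : Fin (m + 3)) ≠ 2 := n12
  have h02 : (0 : Fin (m + 3)) ≠ 2 := n02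
  induction B with
  | zero =>
    intro w d h hd hB
    have := h.2.1 1
    rw [hd 1 h10] at this
    push_cast at hB
    linarith
  | succ B ih =>
    intro w d h hd hB
    by_cases hdv : d ∣ w 0
    · exact ⟨w, d, Lk.refl h, hd, hdv⟩
    · have hw1 : w 1 = d := hd 1 h10
      have hdpos : 1 ≤ d := hw1 ▸ h.2.1 1
      have hr0 : 0 ≤ w 0 % d := Int.emod_nonneg _ (by linarith)
      have hr1 : w 0 % d < d := Int.emod_lt_of_pos _ (by linarith)
      have hr2 : w 0 % d ≠ 0 := fun h => hdv (Int.dvd_of_emod_eq_zero h)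
      have hdiv : d * (w 0 / d) + w 0 % d = w 0 := Int.mul_ediv_add_emod (w 0) d
      have hq0 : 0 ≤ w 0 / d := Int.ediv_nonneg (by linarith [h.2.1 0]) (by linarith)
      obtain ⟨t, ht⟩ := Int.eq_ofNat_of_zero_le hq0
      have hr3 : 1 ≤ w 0 % d := by
        rcases hr0.lt_or_eq with h | h
        · exact h
        · exact absurd h.symm hr2
      obtain ⟨w1, a1, a2, a3⟩ := shT t w h (by
        rw [hw1]
        rw [ht] at hdiv
        nlinarith)
      have b0 : w1 0 = w 0 % d := by
        rw [a2, hw1]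
        rw [ht] at hdiv
        linarith
      have b1 : w1 1 = d := by rw [a3, hw1]
      have hs := shift a1.adm (i := 0) (j := 1) (k := 2) h10.symm h02 h12 (by rw [b0, b1]; exact hr1)
      set w2 := Function.update (Function.update w1 1 (w1 1 - w1 0)) 2 (w1 2 + w1 0) with hw2
      have e1 : w2 1 = d - w 0 % d := by
        rw [hw2, Function.update_of_ne h12, Function.update_self, b0, b1]
      obtain ⟨w3, d3, c1, c2, c3⟩ := stepA (∑ i, w2 i - w2 0).toNat w2 hs.adm (Int.self_le_toNat _)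
      rw [e1] at c3
      obtain ⟨w4, g, f1, f2, f3⟩ := ih w3 d3 c1.adm c2 (by push_cast at hB; linarith)
      exact ⟨w4, g, ((a1.trans hs).trans c1).trans f1, f2, f3⟩

/-- In size at least three the trace and the content determine the class. -/
theorem Q_of_same {μ : ℤ} {u v u' v' : Fin (m + 3) → ℤ} (h : Adm μ u v) (h' : Adm μ u' v')
    (hs : ∑ i, u i * v i = ∑ i, u' i * v' i) (hc : ∀ c, Cont u v c ↔ Cont u' v' c) :
    Q (M μ u v) (M μ u' v') := by
  have key : ∀ {u v : Fin (m + 3) → ℤ}, Adm μ u v → ∃ (w : Fin (m + 3) → ℤ) (g : ℤ),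
      Adm μ (fun _ => 1) w ∧ (∀ c, Cont (fun _ : Fin (m + 3) => 1) w c ↔ Cont u v c) ∧
      ∑ i, w i = ∑ i, u i * v i ∧ Q (M μ u v) (M μ (fun _ => 1) w) ∧
      (∀ l, l ≠ 0 → w l = g) ∧ g ∣ w 0 := by
    intro u v h
    obtain ⟨w, h1, h2, h3, h4⟩ := red1 (∑ i, u i).toNat u v h (Int.self_le_toNat _)
    obtain ⟨w1, d, c1, c2, _⟩ := stepA (∑ i, w i - w 0).toNat w h1 (Int.self_le_toNat _)
    obtain ⟨w2, g, f1, f2, f3⟩ := canon d.toNat w1 d c1.adm c2 (Int.self_le_toNat _)
    exact ⟨w2, g, f1.adm, fun c => ((f1.cont c).trans (c1.cont c)).trans (h2 c),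
      (f1.sum.trans c1.sum).trans h3, (h4.trans c1.q).trans f1.q, f2, f3⟩
  obtain ⟨w, g, a1, a2, a3, a4, a5, a6⟩ := key h
  obtain ⟨w', g', b1, b2, b3, b4, b5, b6⟩ := key h'
  have h10 : (1 : Fin (m + 3)) ≠ 0 := n10
  have dv : ∀ {w : Fin (m + 3) → ℤ} {g : ℤ}, (∀ l, l ≠ 0 → w l = g) → g ∣ w 0 → ∀ c,
      (Cont (fun _ : Fin (m + 3) => 1) w c ↔ c ∣ g) := by
    intro w g h5 h6 c
    constructor
    · intro h
      have := h 0 1
      rwa [one_mul, h5 1 h10] at this
    · intro h i j
      rw [one_mul]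
      by_cases hj : j = 0
      · subst hj; exact h.trans h6
      · rw [h5 j hj]; exact h
  have hg : g = g' := by
    have p1 : 1 ≤ g := a5 1 h10 ▸ a1.2.1 1
    have p2 : 1 ≤ g' := b5 1 h10 ▸ b1.2.1 1
    have q1 : g ∣ g' := by
      rw [← dv b5 b6 g, b2, ← hc, ← a2, dv a5 a6 g]
    have q2 : g' ∣ g := by
      rw [← dv a5 a6 g', a2, hc, ← b2, dv b5 b6 g']
    exact Int.dvd_antisymm (by linarith) (by linarith) q1 q2
  have hw : w = w' := by
    have hne : ∀ l, l ≠ 0 → w l = w' l := fun l hl => by rw [a5 l hl, b5 l hl, hg]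
    have h0 : w 0 = w' 0 := by
      have e : ∑ i, w i = ∑ i, w' i := by rw [a3, b3, hs]
      rw [Fin.sum_univ_succ w, Fin.sum_univ_succ w'] at e
      have e2 : ∑ i : Fin (m + 2), w i.succ = ∑ i : Fin (m + 2), w' i.succ :=
        Finset.sum_congr rfl fun i _ => hne _ (Fin.succ_ne_zero i)
      linarith
    ext l
    by_cases hl : l = 0
    · subst hl; exact h0
    · exact hne l hl
  rw [← hw] at b4
  exact a4.trans b4.symm

end Pool.Agent.R647.SS
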