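import Pool.Agent.R647.SS.Inv

/-!
# The `2 × 2` matrices with eigenvalues `λ` and `±1`
-/

set_option autoImplicit false

namespace Pool.Agent.R647.SS

open Matrix Pool.Agent.TH441.SSE2

/-- The matrix `ε I + (1, 1)ᵀ (n - y, y)`. -/
def T (ε n y : ℤ) : Matrix (Fin 2) (Fin 2) ℤ := !![ε + n - y, y; n - y, ε + y]

lemma T_eq (ε : ℤ) (w : Fin 2 → ℤ) : M ε (fun _ => 1) w = T ε (w 0 + w 1) (w 1) := by
  ext i j
  fin_cases i <;> fin_cases j <;> simp [M, T] <;> ring

lemma T_eq' (ε n y : ℤ) : T ε n y = M ε (fun _ => 1) ![n - y, y] := by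
  rw [T_eq]; simp

lemma swapT {ε n y : ℤ} (hε : ε = 1 ∨ ε = -1) (h1 : 1 ≤ y) (h2 : y ≤ n - 1) :
    Q (T ε n y) (T ε n (n - y)) := by
  have h := Q.swap (ε + n - y) y (n - y) (ε + y) (by rcases hε with h | h <;> rw [h] <;> linarith)
    (by linarith) (by linarith) (by rcases hε with h | h <;> rw [h] <;> linarith)
  have e : T ε n (n - y) = !![ε + y, n - y; y, ε + n - y] := by
    ext i j
    fin_cases i <;> fin_cases j <;> simp [T] <;> ring
  rw [e]
  exact h

lemma not_dvd_of_lt {n y : ℤ} (h1 : 1 ≤ y) (h2 : y ≤ n - 1) : ¬ n ∣ y := fun h => by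
  have := Int.le_of_dvd (by linarith) h
  linarith

/-- The move for a divisor `p` of the dominant eigenvalue. -/
lemma divT {ε n y p q : ℤ} (hε : ε = 1 ∨ ε = -1) (hp : 1 ≤ p) (hpq : p * q = ε + n)
    (h1 : 1 ≤ y) (h2 : y ≤ n - 1) : ∃ y1, 1 ≤ y1 ∧ y1 ≤ n - 1 ∧ n ∣ p * y1 - y ∧
      Q (T ε n y) (T ε n y1) := by
  have hεε : ε * ε = 1 := by rcases hε with h | h <;> rw [h] <;> norm_num
  set r := (ε * y) % p with hr
  have hr0 : 0 ≤ r := Int.emod_nonneg _ (by linarith)
  have hr1 : r ≤ p - 1 := by have := Int.emod_lt_of_pos (ε * y) (show 0 < p by linarith); omega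
  obtain ⟨a, ha⟩ : p ∣ y - ε * r := by
    have h3 : ε * y - r = p * ((ε * y) / p) := by
      have := Int.mul_ediv_add_emod (ε * y) p
      rw [← hr] at this; linarith
    refine ⟨ε * ((ε * y) / p), ?_⟩
    calc y - ε * r = ε * (ε * y - r) + (1 - ε * ε) * y := by ring
      _ = p * (ε * ((ε * y) / p)) := by rw [h3, hεε]; ring
  set b := q - ε - a with hb
  have hpb : p * b = n - y - ε * (p - 1 - r) := by
    rw [hb]
    calc p * (q - ε - a) = p * q - ε * p - p * a := by ring
      _ = n - y - ε * (p - 1 - r) := by rw [hpq, ← ha]; ring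
  have hab : 0 ≤ a ∧ 0 ≤ b ∧ 0 ≤ ε + a ∧ 0 ≤ b + ε := by
    rcases hε with h | h
    · rw [h] at ha hpb ⊢
      have a0 : 0 ≤ a := by
        by_contra hneg
        push Not at hneg
        nlinarith
      have b0 : 0 ≤ b := by
        by_contra hneg
        push Not at hneg
        nlinarith
      exact ⟨a0, b0, by linarith, by linarith⟩
    · rw [h] at ha hpb ⊢
      have a0 : 1 ≤ a := by
        by_contra hneg
        push Not at hneg
        nlinarith
      have b0 : 1 ≤ b := by
        by_contra hneg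
        push Not at hneg
        nlinarith
      exact ⟨by linarith, by linarith, by linarith, by linarith⟩
  obtain ⟨a0, b0, c0, d0⟩ := hab
  have hq : 1 ≤ q := by
    by_contra hneg
    push Not at hneg
    have h3 : p * q ≤ 0 := by nlinarith
    have h4 : 1 ≤ ε + n := by rcases hε with h | h <;> rw [h] <;> linarith
    linarith
  have hdvd : n ∣ p * (q * r + a) - y := by
    refine ⟨r, ?_⟩
    calc p * (q * r + a) - y = (p * q) * r + p * a - y := by ring
      _ = n * r := by rw [hpq, ← ha]; ring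
  have g1 : 0 ≤ q * r + a := by positivity
  have g2 : q * r + a = n - (q * (p - 1 - r) + b) := by
    rw [hb]
    have : q * p = ε + n := by rw [mul_comm]; exact hpq
    calc q * r + a = q * p - (q * (p - 1 - r) + q) + a := by ring
      _ = n - (q * (p - 1 - r) + (q - ε - a)) := by rw [this]; ring
  have g3 : 0 ≤ q * (p - 1 - r) + b := by
    have : 0 ≤ q * (p - 1 - r) := mul_nonneg (by linarith) (by linarith)
    linarith
  have hn := not_dvd_of_lt h1 h2
  have g4 : q * r + a ≠ 0 := by
    intro h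
    rw [h, mul_zero, zero_sub, dvd_neg] at hdvd
    exact hn hdvd
  have g5 : q * (p - 1 - r) + b ≠ 0 := by
    intro h
    rw [g2, h, sub_zero] at hdvd
    exact hn ((dvd_sub_right (Dvd.intro_left p rfl)).mp hdvd)
  refine ⟨q * r + a, by omega, by omega, hdvd, ?_⟩
  refine Q.of_elem !![p - r, r; p - 1 - r, 1 + r] !![q - a, a; b, ε + a] ?_ ?_ ?_ ?_
  · intro i j
    fin_cases i <;> fin_cases j <;> simp <;> linarith
  · intro i j
    fin_cases i <;> fin_cases j <;> simp <;> linarith
  · ext i j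
    fin_cases i <;> fin_cases j <;> simp [T, Matrix.mul_apply, Fin.sum_univ_two, hb]
    · linear_combination (-1 : ℤ) * hpq - ha
    · linear_combination ha
    · linear_combination (-1 : ℤ) * hpq - ha
    · linear_combination ha
  · ext i j
    fin_cases i <;> fin_cases j <;> simp [T, Matrix.mul_apply, Fin.sum_univ_two, hb]
    · linear_combination (-1 : ℤ) * hpq
    · ring
    · linear_combination (-1 : ℤ) * hpq
    · ring

lemma orbitT {ε n : ℤ} (hε : ε = 1 ∨ ε = -1) (l : ℕ) (c : ℕ) : ∀ y y' : ℤ, 1 ≤ c →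
    (c : ℤ) ∣ (ε + n) ^ l → 1 ≤ y → y ≤ n - 1 → 1 ≤ y' → y' ≤ n - 1 → n ∣ c * y' - y →
    Q (T ε n y) (T ε n y') := by
  induction c using Nat.strong_induction_on with
  | _ c ih =>
    intro y y' hc hcl h1 h2 h3 h4 hd
    have hlam : 1 ≤ ε + n := by rcases hε with h | h <;> rw [h] <;> linarith
    by_cases hc1 : c = 1
    · subst hc1
      have : y' = y := by
        obtain ⟨k, hk⟩ := hd
        push_cast at hk
        have hk0 : k = 0 := by
          by_contra hne
          rcases lt_or_gt_of_ne hne with h | h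
          · nlinarith
          · nlinarith
        rw [hk0] at hk
        linarith
      rw [this]
      exact Q.refl _
    · set p := Int.gcd c (ε + n) with hp
      have hp1 : p ≠ 1 := by
        intro h
        have hco : IsCoprime (c : ℤ) (ε + n) := Int.isCoprime_iff_gcd_eq_one.mpr h
        have := hco.pow_right (n := l)
        have hu : IsUnit (c : ℤ) := this.isUnit_of_dvd' (dvd_refl _) hcl
        have := Int.isUnit_iff_natAbs_eq.mp hu
        simp at this
        exact hc1 this
      have hp0 : p ≠ 0 := by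
        intro h
        have := (Int.gcd_eq_zero_iff.mp h).1
        have : c = 0 := by exact_mod_cast this
        omega
      obtain ⟨c1, hc1'⟩ : p ∣ c := by
        have := Int.gcd_dvd_left (a := (c : ℤ)) (b := ε + n)
        exact_mod_cast this
      obtain ⟨q, hq⟩ : (p : ℤ) ∣ ε + n := Int.gcd_dvd_right ..
      obtain ⟨y1, k1, k2, k3, k4⟩ := divT (q := q) hε (show (1 : ℤ) ≤ p by exact_mod_cast Nat.one_le_iff_ne_zero.mpr hp0)
        hq.symm h1 h2
      have hc1pos : 1 ≤ c1 := by
        rcases Nat.eq_zero_or_pos c1 with h | h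
        · rw [h, mul_zero] at hc1'; omega
        · exact h
      have hlt : c1 < c := by
        rw [hc1']
        have : 2 ≤ p := by omega
        nlinarith
      refine k4.trans (ih c1 hlt y1 y' hc1pos (dvd_trans ?_ hcl) k1 k2 h3 h4 ?_)
      · rw [hc1']; push_cast; exact Dvd.intro_left _ rfl
      · have hco : IsCoprime n (p : ℤ) := by
          have hεε : ε * ε = 1 := by rcases hε with h | h <;> rw [h] <;> norm_num
          refine ⟨-ε, ε * q, ?_⟩
          linear_combination (-ε) * hq + hεε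
        have h5 : n ∣ p * (c1 * y' - y1) := by
          have h6 : (p : ℤ) * (c1 * y' - y1) = (c * y' - y) - (p * y1 - y) := by
            rw [hc1']; push_cast; ring
          rw [h6]
          exact dvd_sub hd k3
        exact hco.dvd_of_dvd_mul_left h5

/-- The arithmetic relation. -/
def Rel2 (ε n y y' : ℤ) : Prop :=
  ∃ c l : ℕ, 1 ≤ c ∧ (c : ℤ) ∣ (ε + n) ^ l ∧ (n ∣ c * y' - y ∨ n ∣ c * y' + y)

lemma Q_of_rel2 {ε n y y' : ℤ} (hε : ε = 1 ∨ ε = -1) (h1 : 1 ≤ y) (h2 : y ≤ n - 1)
    (h3 : 1 ≤ y') (h4 : y' ≤ n - 1) (h : Rel2 ε n y y') : Q (T ε n y) (T ε n y') := by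
  obtain ⟨c, l, hc, hcl, hd | hd⟩ := h
  · exact orbitT hε l c y y' hc hcl h1 h2 h3 h4 hd
  · refine (swapT hε h1 h2).trans (orbitT hε l c (n - y) y' hc hcl (by linarith) (by linarith)
      h3 h4 ?_)
    have e : c * y' - (n - y) = (c * y' + y) - n := by ring
    rw [e]
    exact dvd_sub hd (dvd_refl n)

lemma det_T (ε n y : ℤ) (hεε : ε * ε = 1) : (T ε n y).det = ε * (ε + n) := by
  rw [T, Matrix.det_fin_two_of]
  ring

/-- Shift equivalence over `ℤ` gives the arithmetic relation. -/
lemma rel2_of_SEZ {ε n y y' : ℤ} (hε : ε = 1 ∨ ε = -1) (h1 : 1 ≤ y) (h2 : y ≤ n - 1)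
    (h3 : 1 ≤ y') (h4 : y' ≤ n - 1) (h : SEZ (T ε n y) (T ε n y')) : Rel2 ε n y y' := by
  have hεε : ε * ε = 1 := by rcases hε with h | h <;> rw [h] <;> norm_num
  have hlam : 1 ≤ ε + n := by rcases hε with h | h <;> rw [h] <;> linarith
  obtain ⟨l, hl, R, S, e1, e2, e3, e4⟩ := h
  have r01 := congrFun (congrFun e3 0) 1
  have r11 := congrFun (congrFun e3 1) 1
  have s01 := congrFun (congrFun e4 0) 1
  have s11 := congrFun (congrFun e4 1) 1
  simp only [T, Matrix.mul_apply, Fin.sum_univ_two, Matrix.of_apply, Matrix.cons_val_zero,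
    Matrix.cons_val_one, Matrix.cons_val', Matrix.cons_val_fin_one] at r01 r11 s01 s11
  set c := R 0 0 + R 0 1 with hc
  set d := S 0 0 + S 0 1 with hd
  have hR1 : R 1 0 + R 1 1 = c := by
    have h5 : (R 0 0 + R 0 1) * y' = (R 1 0 + R 1 1) * y' := by linear_combination r11 - r01
    exact (mul_right_cancel₀ (by linarith) h5).symm
  have hS1 : S 1 0 + S 1 1 = d := by
    have h5 : (S 0 0 + S 0 1) * y = (S 1 0 + S 1 1) * y := by linear_combination s01 - s11
    exact (mul_right_cancel₀ (by linarith) h5).symm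
  have hX : (n - y) * R 0 1 + y * R 1 1 = c * y' := by rw [hc]; linear_combination r01
  -- row sums
  have hcd : c * d = (ε + n) ^ l := by
    obtain ⟨k, k1, k2⟩ := pow_M ε (fun _ => 1) ![n - y, y] l
    rw [← T_eq'] at k2
    have k3 : dt (fun _ => 1) ![n - y, y] = n := by
      simp [dt, Fin.sum_univ_two]
    rw [k3] at k1
    have k4 := k2 0 0
    have k5 := k2 0 1
    rw [e1, Matrix.mul_apply, Fin.sum_univ_two] at k4 k5
    simp at k4 k5
    have : c * d = R 0 0 * (S 0 0 + S 0 1) + R 0 1 * (S 1 0 + S 1 1) := by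
      rw [hS1, hc]; ring
    rw [this]
    linear_combination k4 + k5 + k1
  have hdR : R.det = c * (R 1 1 - R 0 1) := by
    rw [Matrix.det_fin_two]
    have h5 : R 0 0 = c - R 0 1 := by rw [hc]; ring
    have h6 : R 1 0 = c - R 1 1 := by linarith
    rw [h5, h6]; ring
  have hdS : S.det = d * (S 1 1 - S 0 1) := by
    rw [Matrix.det_fin_two]
    have h5 : S 0 0 = d - S 0 1 := by rw [hd]; ring
    have h6 : S 1 0 = d - S 1 1 := by linarith
    rw [h5, h6]; ring
  have hdet := congrArg Matrix.det e1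
  rw [Matrix.det_pow, Matrix.det_mul, hdR, hdS, det_T ε n y hεε, mul_pow] at hdet
  have hne : (ε + n) ^ l ≠ 0 := pow_ne_zero l (by linarith)
  have hu : (R 1 1 - R 0 1) * (S 1 1 - S 0 1) = ε ^ l := by
    apply mul_left_cancel₀ hne
    rw [← hcd] at hdet ⊢
    linear_combination (-1 : ℤ) * hdet
  have hunit : IsUnit (R 1 1 - R 0 1) := by
    have h5 : IsUnit (ε ^ l) := by
      apply IsUnit.pow
      rcases hε with h | h <;> rw [h]
      · exact isUnit_one
      · exact isUnit_one.neg
    rw [← hu] at h5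
    exact isUnit_of_mul_isUnit_left h5
  have hc0 : c ≠ 0 := by
    intro h
    rw [h, zero_mul] at hcd
    exact hne hcd.symm
  have hY : n ∣ c * y' - (R 1 1 - R 0 1) * y := ⟨R 0 1, by rw [← hX]; ring⟩
  have hcl : ((c.natAbs : ℕ) : ℤ) ∣ (ε + n) ^ l := by
    rw [Int.natAbs_dvd]
    exact ⟨d, hcd.symm⟩
  refine ⟨c.natAbs, l, Nat.one_le_iff_ne_zero.mpr (Int.natAbs_ne_zero.mpr hc0), hcl, ?_⟩
  rcases Int.isUnit_iff.mp hunit with he | he <;> rw [he] at hY <;>
    rcases abs_cases c with ⟨hab, _⟩ | ⟨hab, _⟩ <;> rw [Int.natCast_natAbs, hab]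
  · left
    simpa using hY
  · right
    have : -c * y' + y = -(c * y' - 1 * y) := by ring
    rw [this]
    exact (dvd_neg).mpr hY
  · right
    have : c * y' + y = c * y' - -1 * y := by ring
    rw [this]
    exact hY
  · left
    have : -c * y' - y = -(c * y' - -1 * y) := by ring
    rw [this]
    exact (dvd_neg).mpr hY

end Pool.Agent.R647.SS
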